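import Pool.Agent.H47.UG.Alg

/-!
# Block A, LEADK: leading monomials of products of maximal minors, over every field
-/

set_option autoImplicit false

open MvPolynomial

namespace Pool.Agent.H47.UG

namespace LeadK

/-- weights -/
def wt (n k : ℕ) (i : Fin k × Fin n) : ℕ := (i.1 : ℕ) + 1

variable {K : Type} [Field K]

/-- the minor of the rows `c` -/
noncomputable def minor {n k : ℕ} (c : Fin n → Fin k) : MvPolynomial (Fin k × Fin n) K :=
  Matrix.det (Matrix.of fun j i : Fin n => (X (c j, i) : MvPolynomial (Fin k × Fin n) K))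

/-- `a` contains `p` disjoint strictly increasing chains (with multiplicities). -/
def Packed {n k : ℕ} (p : ℕ) (a : Fin k × Fin n →₀ ℕ) : Prop :=
  ∃ f : Fin p → Fin n → Fin k, (∀ l, StrictMono (f l)) ∧
    ∀ x : Fin k × Fin n, Nat.card {l // f l x.2 = x.1} ≤ a x

/-- the weight `∑ a_{ji} j i` -/
def ph {n k : ℕ} : (Fin k × Fin n →₀ ℕ) →+ ℕ where
  toFun a := ∑ x, a x * ((x.1 : ℕ) * (x.2 : ℕ))
  map_zero' := by simp
  map_add' a b := by simp [add_mul, Finset.sum_add_distrib]

lemma ph_single {n k : ℕ} (x : Fin k × Fin n) : ph (Finsupp.single x 1) = (x.1 : ℕ) * (x.2 : ℕ) := by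
  classical
  show ∑ y, (Finsupp.single x 1) y * ((y.1 : ℕ) * (y.2 : ℕ)) = _
  rw [Finset.sum_eq_single x]
  · simp
  · intro y _ hy
    rw [Finsupp.single_eq_of_ne hy]
    simp
  · simp

/-- `a` is the leading exponent of `g`, with coefficient 1 -/
def Lead {n k : ℕ} (g : MvPolynomial (Fin k × Fin n) K) (a : Fin k × Fin n →₀ ℕ) : Prop :=
  coeff a g = 1 ∧ ∀ b, coeff b g ≠ 0 → b = a ∨ ph b < ph a

lemma Lead.mul {n k : ℕ} {g h : MvPolynomial (Fin k × Fin n) K} {a b : Fin k × Fin n →₀ ℕ}
    (hg : Lead g a) (hh : Lead h b) : Lead (g * h) (a + b) := by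
  classical
  have key : ∀ u v : Fin k × Fin n →₀ ℕ, coeff u g * coeff v h ≠ 0 →
      (u = a ∧ v = b) ∨ ph (u + v) < ph (a + b) := by
    intro u v huv
    have h1 := hg.2 u (left_ne_zero_of_mul huv)
    have h2 := hh.2 v (right_ne_zero_of_mul huv)
    rw [map_add, map_add]
    rcases h1 with rfl | h1 <;> rcases h2 with rfl | h2
    · exact Or.inl ⟨rfl, rfl⟩
    · right; omega
    · right; omega
    · right; omega
  constructor
  · rw [coeff_mul, Finset.sum_eq_single (a, b)]
    · simp [hg.1, hh.1]
    · rintro ⟨u, v⟩ huv hne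
      rw [Finset.HasAntidiagonal.mem_antidiagonal] at huv
      simp only at huv ⊢
      by_contra h
      rcases key u v h with ⟨rfl, rfl⟩ | h'
      · exact hne rfl
      · rw [huv] at h'
        exact lt_irrefl _ h'
    · intro h
      apply absurd _ h
      rw [Finset.HasAntidiagonal.mem_antidiagonal]
  · intro c hc
    rw [coeff_mul] at hc
    obtain ⟨⟨u, v⟩, huv, hne⟩ := Finset.exists_ne_zero_of_sum_ne_zero hc
    rw [Finset.HasAntidiagonal.mem_antidiagonal] at huv
    simp only at huv hne
    rcases key u v hne with ⟨rfl, rfl⟩ | h'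
    · exact Or.inl huv.symm
    · right
      rwa [huv] at h'

lemma Lead.monomial {n k : ℕ} (a : Fin k × Fin n →₀ ℕ) :
    Lead (MvPolynomial.monomial a (1 : K)) a := by
  classical
  constructor
  · simp
  · intro b hb
    rw [coeff_monomial] at hb
    left
    by_contra h
    exact hb (if_neg fun h' => h h'.symm)

lemma Lead.one {n k : ℕ} : Lead (1 : MvPolynomial (Fin k × Fin n) K) 0 := by
  have := Lead.monomial (K := K) (n := n) (k := k) 0
  rwa [MvPolynomial.monomial_zero', map_one] at this

/-- exponent of the diagonal monomial -/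
noncomputable def ex {n k : ℕ} (c : Fin n → Fin k) : Fin k × Fin n →₀ ℕ := ∑ i, Finsupp.single (c i, i) 1

lemma ex_apply {n k : ℕ} (c : Fin n → Fin k) (x : Fin k × Fin n) :
    ex c x = if c x.2 = x.1 then 1 else 0 := by
  classical
  unfold ex
  rw [Finsupp.finsetSum_apply, Finset.sum_eq_single x.2]
  · rw [Finsupp.single_apply]
    congr 1
    rw [Prod.ext_iff]
    simp
  · intro i _ hi
    rw [Finsupp.single_apply, if_neg]
    rintro rfl
    exact hi rfl
  · simp

lemma ph_ex {n k : ℕ} (c : Fin n → Fin k) : ph (ex c) = ∑ i, (c i : ℕ) * (i : ℕ) := by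
  unfold ex
  rw [map_sum]
  exact Finset.sum_congr rfl fun i _ => ph_single _

lemma prod_X {n k : ℕ} (c : Fin n → Fin k) :
    ∏ i, (X (c i, i) : MvPolynomial (Fin k × Fin n) K) = MvPolynomial.monomial (ex c) 1 := by
  unfold ex
  rw [MvPolynomial.monomial_sum_one]
  rfl

lemma minor_eq {n k : ℕ} (c : Fin n → Fin k) :
    minor (K := K) c = ∑ σ : Equiv.Perm (Fin n), Equiv.Perm.sign σ • MvPolynomial.monomial (ex fun i => c (σ i)) (1 : K) := by
  unfold minor
  rw [Matrix.det_apply]
  refine Finset.sum_congr rfl fun σ _ => ?_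
  rw [← prod_X]
  rfl

lemma ex_lt {n k : ℕ} {c : Fin n → Fin k} (hc : StrictMono c) {σ : Equiv.Perm (Fin n)} (hσ : σ ≠ 1) :
    ph (ex fun i => c (σ i)) < ph (ex c) := by
  rw [ph_ex, ph_ex]
  have hmono : Monovary (fun i => (c i : ℕ)) (fun i : Fin n => (i : ℕ)) := by
    intro i j hij
    have : i < j := hij
    exact (hc this).le
  have h := (Monovary.sum_comp_perm_mul_lt_sum_mul_iff (σ := σ) hmono).2 ?_
  · exact h
  · intro hm
    apply hσ
    have h2 : StrictMono σ := by
      intro i j hij
      have h3 : (c (σ i) : ℕ) ≤ c (σ j) := hm (show (i : ℕ) < j from hij)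
      have h4 : σ i ≤ σ j := hc.le_iff_le.1 h3
      exact lt_of_le_of_ne h4 fun h => hij.ne (σ.injective h)
    have h3 : (σ : Fin n → Fin n) = id := (h2.range_inj strictMono_id).1 (by
      rw [Set.range_id, σ.surjective.range_eq])
    ext i
    rw [h3]
    rfl

lemma Lead.minor {n k : ℕ} {c : Fin n → Fin k} (hc : StrictMono c) : Lead (LeadK.minor (K := K) c) (ex c) := by
  classical
  have hco : ∀ b, coeff b (LeadK.minor (K := K) c) = ∑ σ : Equiv.Perm (Fin n),
      Equiv.Perm.sign σ • (if (ex fun i => c (σ i)) = b then (1 : K) else 0) := by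
    intro b
    rw [minor_eq, coeff_sum]
    refine Finset.sum_congr rfl fun σ _ => ?_
    rw [← coeff_monomial]
    rcases Int.units_eq_one_or (Equiv.Perm.sign σ) with h | h <;> rw [h]
    · simp
    · rw [Units.neg_smul, Units.neg_smul, one_smul, one_smul, coeff_neg]
  constructor
  · rw [hco, Finset.sum_eq_single 1]
    · simp
    · intro σ _ hσ
      rw [if_neg]
      · simp
      · intro h
        have := ex_lt hc hσ
        rw [h] at this
        exact lt_irrefl _ this
    · simp
  · intro b hb
    rw [hco] at hb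
    obtain ⟨σ, _, hσ⟩ := Finset.exists_ne_zero_of_sum_ne_zero hb
    by_cases h : σ = 1
    · subst h
      left
      by_contra hne
      apply hσ
      rw [if_neg]
      · simp
      · intro h'
        exact hne h'.symm
    · right
      have h1 : (ex fun i => c (σ i)) = b := by
        by_contra hne
        apply hσ
        rw [if_neg hne]
        simp
      rw [← h1]
      exact ex_lt hc h

lemma weight_ex {n k : ℕ} (c : Fin n → Fin k) : Finsupp.weight (wt n k) (ex c) = ∑ i, ((c i : ℕ) + 1) := by
  unfold ex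
  rw [map_sum]
  refine Finset.sum_congr rfl fun i _ => ?_
  rw [Finsupp.weight_single]
  simp [wt]

lemma degree_ex {n k : ℕ} (c : Fin n → Fin k) : (ex c).degree = n := by
  unfold ex
  rw [map_sum]
  simp

lemma exists_fun {τ : Type} : ∀ (q : ℕ) (b : τ →₀ ℕ), b.degree = q →
    ∃ h : Fin q → τ, b = ∑ r, Finsupp.single (h r) 1 := by
  classical
  intro q
  induction q with
  | zero =>
    intro b hb
    refine ⟨Fin.elim0, ?_⟩
    rw [Finsupp.degree_eq_zero_iff] at hb
    simp [hb]
  | succ q ih =>
    intro b hb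
    have hne : b ≠ 0 := by
      rintro rfl
      simp at hb
    obtain ⟨x, hx⟩ := Finsupp.ne_iff.1 hne
    have hx1 : Finsupp.single x 1 ≤ b := by
      rw [Finsupp.single_le_iff]
      exact Nat.one_le_iff_ne_zero.2 hx
    have hs : b - Finsupp.single x 1 + Finsupp.single x 1 = b := tsub_add_cancel_of_le hx1
    have hd : (b - Finsupp.single x 1).degree = q := by
      have h1 := congrArg Finsupp.degree hs
      rw [map_add, Finsupp.degree_single, hb] at h1
      omega
    obtain ⟨h, hh⟩ := ih _ hd
    refine ⟨Fin.cons x h, ?_⟩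
    rw [Fin.sum_univ_succ]
    simp only [Fin.cons_zero, Fin.cons_succ]
    rw [← hh, add_comm, hs]

/-- the embedding of the variables -/
def emb (n k : ℕ) (x : Fin k × Fin n) : ℕ × Fin n := ((x.1 : ℕ), x.2)

lemma emb_inj (n k : ℕ) : Function.Injective (emb n k) := by
  rintro ⟨a, b⟩ ⟨c, d⟩ h
  simp only [emb, Prod.mk.injEq] at h
  exact Prod.ext (Fin.ext h.1) h.2

lemma rename_minor {n k : ℕ} (c : Fin n → Fin k) : rename (emb n k) (minor (K := K) c) =
    Matrix.det (Matrix.of fun l t : Fin n => (X ((c t : ℕ), l) : MvPolynomial (ℕ × Fin n) K)) := by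
  unfold minor
  rw [AlgHom.map_det, ← Matrix.det_transpose]
  congr 1
  ext1 i j
  simp [emb]

/-- An element with leading exponent `a`. -/
lemma exists_good {n k m p q : ℕ} (a : Fin k × Fin n →₀ ℕ) (ha : Finsupp.weight (wt n k) a = m)
    (hq : a.degree = q) (hp : Packed p a) :
    ∃ g : MvPolynomial (Fin k × Fin n) K, Lead g a ∧ rename (emb n k) g ∈ IP K n k p m q := by
  classical
  obtain ⟨f, hf, hle⟩ := hp
  have hsum : ∀ s : Finset (Fin p), Lead (∏ l ∈ s, LeadK.minor (K := K) (f l)) (∑ l ∈ s, ex (f l)) := by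
    intro s
    induction s using Finset.induction_on with
    | empty => simpa using Lead.one
    | insert l s hl ih =>
      rw [Finset.prod_insert hl, Finset.sum_insert hl]
      exact (Lead.minor (hf l)).mul ih
  have hle' : ∑ l, ex (f l) ≤ a := by
    intro x
    refine le_trans (le_of_eq ?_) (hle x)
    rw [Finsupp.finsetSum_apply, Nat.card_eq_fintype_card, Fintype.card_subtype, Finset.card_filter]
    exact Finset.sum_congr rfl fun l _ => ex_apply _ _
  have hadd : ∑ l, ex (f l) + (a - ∑ l, ex (f l)) = a := add_tsub_cancel_of_le hle'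
  obtain ⟨h, hh⟩ := exists_fun _ (a - ∑ l, ex (f l)) rfl
  refine ⟨(∏ l, LeadK.minor (f l)) * MvPolynomial.monomial (a - ∑ l, ex (f l)) 1, ?_, ?_⟩
  · have h1 := (hsum Finset.univ).mul (Lead.monomial (a - ∑ l, ex (f l)))
    rwa [hadd] at h1
  · apply Submodule.subset_span
    refine ⟨f, (a - ∑ l, ex (f l)).degree, fun r => (h r).1, fun r => (h r).2, ?_, ?_, ?_⟩
    · have h1 := congrArg Finsupp.degree hadd
      rw [map_add, map_sum, hq] at h1
      simp only [degree_ex, Finset.sum_const, Finset.card_univ, Fintype.card_fin, smul_eq_mul] at h1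
      omega
    · have h1 := congrArg (Finsupp.weight (wt n k)) hadd
      have h2 : Finsupp.weight (wt n k) (a - ∑ l, ex (f l)) = ∑ r, (((h r).1 : ℕ) + 1) := by
        conv_lhs => rw [hh]
        rw [map_sum]
        refine Finset.sum_congr rfl fun r _ => ?_
        rw [Finsupp.weight_single]
        simp [wt]
      rw [map_add, map_sum, ha, h2] at h1
      simp only [weight_ex] at h1
      beta_reduce
      omega
    · rw [map_mul, map_prod]
      congr 1
      · exact Finset.prod_congr rfl fun l _ => rename_minor _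
      · have h3 : (MvPolynomial.monomial (a - ∑ l, ex (f l)) (1 : K)) = ∏ r, X (h r) := by
          conv_lhs => rw [hh]
          rw [MvPolynomial.monomial_sum_one]
          rfl
        rw [h3, map_prod]
        refine Finset.prod_congr rfl fun r _ => ?_
        rw [rename_X]
        rfl

lemma finite_set (n k m p q : ℕ) : {v : MvPolynomial (ℕ × Fin n) K | ∃ (c : Fin p → Fin n → Fin k) (q' : ℕ)
    (s : Fin q' → Fin k) (l : Fin q' → Fin n),
    q' + p * n = q ∧ ∑ r, ((s r : ℕ) + 1) + ∑ r, ∑ t, ((c r t : ℕ) + 1) = m ∧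
    v = (∏ r, Matrix.det (Matrix.of fun l t : Fin n => (X ((c r t : ℕ), l) : MvPolynomial (ℕ × Fin n) K))) *
      ∏ r, X ((s r : ℕ), l r)}.Finite := by
  refine Set.Finite.subset (Set.finite_range fun x : (Fin p → Fin n → Fin k) ×
    (Fin (q - p * n) → Fin k) × (Fin (q - p * n) → Fin n) =>
    (∏ r, Matrix.det (Matrix.of fun l t : Fin n => (X ((x.1 r t : ℕ), l) : MvPolynomial (ℕ × Fin n) K))) *
      ∏ r, X ((x.2.1 r : ℕ), x.2.2 r)) ?_
  rintro v ⟨c, q', s, l, h1, -, rfl⟩
  obtain rfl : q' = q - p * n := by omega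
  exact ⟨(c, s, l), rfl⟩

end LeadK

open LeadK in
/-- LEADK: the rank of the good part is at least the number of packed exponents. -/
theorem leadK {K : Type} [Field K] (n k m p q : ℕ) :
    Nat.card {a : Fin k × Fin n →₀ ℕ // Finsupp.weight (fun p : Fin k × Fin n => (p.1 : ℕ) + 1) a = m ∧
      a.degree = q ∧ ∃ f : Fin p → Fin n → Fin k, (∀ l, StrictMono (f l)) ∧
        ∀ x : Fin k × Fin n, Nat.card {l // f l x.2 = x.1} ≤ a x} ≤ Module.finrank K (IP K n k p m q) := by
  classical
  set S := {a : Fin k × Fin n →₀ ℕ // Finsupp.weight (fun p : Fin k × Fin n => (p.1 : ℕ) + 1) a = m ∧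
      a.degree = q ∧ ∃ f : Fin p → Fin n → Fin k, (∀ l, StrictMono (f l)) ∧
        ∀ x : Fin k × Fin n, Nat.card {l // f l x.2 = x.1} ≤ a x} with hS
  choose g hl hg using fun a : S => exists_good (K := K) (p := p) (m := m) (q := q) a.1 a.2.1 a.2.2.1 a.2.2.2
  have hfd : Module.Finite K (IP K n k p m q) := by
    unfold IP
    exact Module.Finite.span_of_finite K (finite_set n k m p q)
  have h0 : LinearIndependent K g := by
    rw [linearIndependent_iff']
    intro s c hc
    by_contra hne
    push Not at hne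
    obtain ⟨i, hi, hci⟩ := hne
    obtain ⟨j, hj, hmax⟩ := Finset.exists_max_image (s.filter fun a => c a ≠ 0) (fun a => ph a.1)
      ⟨i, Finset.mem_filter.2 ⟨hi, hci⟩⟩
    rw [Finset.mem_filter] at hj
    have h1 := congrArg (coeff j.1) hc
    rw [coeff_sum, coeff_zero, Finset.sum_eq_single j] at h1
    · rw [coeff_smul, (hl j).1, smul_eq_mul, mul_one] at h1
      exact hj.2 h1
    · intro b hb hbj
      rw [coeff_smul, smul_eq_mul]
      by_cases hcb : c b = 0
      · rw [hcb, zero_mul]
      · by_cases hz : coeff j.1 (g b) = 0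
        · rw [hz, mul_zero]
        · exfalso
          have h2 := hmax b (Finset.mem_filter.2 ⟨hb, hcb⟩)
          rcases (hl b).2 _ hz with h3 | h3
          · exact hbj (Subtype.ext h3.symm)
          · omega
    · intro h
      exact absurd hj.1 h
  have h1 : LinearIndependent K (fun a : S => (rename (emb n k) : MvPolynomial (Fin k × Fin n) K →ₐ[K]
      MvPolynomial (ℕ × Fin n) K).toLinearMap (g a)) :=
    h0.map' _ (LinearMap.ker_eq_bot.2 (rename_injective _ (emb_inj n k)))
  have hli : LinearIndependent K (fun a : S => (⟨rename (emb n k) (g a), hg a⟩ : IP K n k p m q)) :=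
    LinearIndependent.of_comp (IP K n k p m q).subtype h1
  have hfin : Finite S := hli.finite
  have := Fintype.ofFinite S
  rw [Nat.card_eq_fintype_card]
  exact hli.fintype_card_le_finrank

end Pool.Agent.H47.UG
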