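import Pool.Agent.H47.UG.Defs
import Pool.Agent.H38.MB.DerExt

/-!
# The function field of a hypersurface (A0)
-/

set_option autoImplicit false

open MvPolynomial

namespace Pool.Agent.H47.UG

/-- homogeneity -/
private lemma aeval_scale {K E : Type} [Field K] [Field E] [Algebra K E] {n : ℕ} (v : Fin (n + 2) → E) (c : E)
    (s : ℕ) (P : HP K n) (hP : P.IsHomogeneous s) : aeval (fun i => c * v i) P = c ^ s * aeval v P := by
  rw [aeval_def, aeval_def, eval₂_eq', eval₂_eq', Finset.mul_sum]
  refine Finset.sum_congr rfl fun b hb => ?_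
  have h1 : ∑ i, b i = s := by
    have h := hP (mem_support_iff.1 hb)
    rw [← h, Finsupp.weight_apply, Finsupp.sum_fintype _ _ (by simp)]
    simp
  simp_rw [mul_pow]
  rw [Finset.prod_mul_distrib, Finset.prod_pow_eq_pow_sum, h1]
  ring

/-- every value of a polynomial at a point with `x₀ = 1` is the value of a form of any large degree -/
private lemma exists_form {K E : Type} [Field K] [Field E] [Algebra K E] {n : ℕ} (v : Fin (n + 2) → E)
    (h0 : v 0 = 1) (P : HP K n) (s : ℕ) (hs : P.totalDegree ≤ s) :
    ∃ P' : HP K n, P'.IsHomogeneous s ∧ aeval v P' = aeval v P := by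
  refine ⟨∑ j ∈ Finset.range (s + 1), X 0 ^ (s - j) * homogeneousComponent j P, ?_, ?_⟩
  · refine IsHomogeneous.sum _ _ _ fun j hj => ?_
    have h1 := (isHomogeneous_X_pow (R := K) (0 : Fin (n + 2)) (s - j)).mul
      (homogeneousComponent_isHomogeneous j P)
    have h2 : s - j + j = s := by
      have := Finset.mem_range.1 hj
      omega
    rwa [h2] at h1
  · rw [map_sum]
    have h1 : ∀ j ∈ Finset.range (s + 1), aeval v (X 0 ^ (s - j) * homogeneousComponent j P) =
        aeval v (homogeneousComponent j P) := by
      intro j _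
      rw [map_mul, map_pow, aeval_X, h0, one_pow, one_mul]
    rw [Finset.sum_congr rfl h1, ← map_sum]
    congr 1
    conv_rhs => rw [← sum_homogeneousComponent P]
    symm
    refine Finset.sum_subset (Finset.range_mono (by omega)) fun j _ hj => ?_
    refine homogeneousComponent_eq_zero _ _ ?_
    simp only [Finset.mem_range] at hj
    omega

/-- derivations of the field with given values on algebraically independent elements -/
private lemma exists_der {K L ι : Type} [Field K] [Field L] [CharZero L] [Algebra K L] (v : ι → L)
    (hv : AlgebraicIndependent K v) (a : ι → L) : ∃ D : Derivation K L L, ∀ s, D (v s) = a s := by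
  obtain ⟨D, hD1, hD2⟩ := MbD.exists_derivation (A := K) (L := L) v hv 0 a
  refine ⟨Derivation.mk' { toFun := D, map_add' := map_add D, map_smul' := ?_ } ?_, hD2⟩
  · intro c v
    rw [RingHom.id_apply, Algebra.smul_def, Derivation.leibniz, hD1]
    simp [Algebra.smul_def]
  · intro a b
    exact D.leibniz a b

/-- a form without the last variable, divisible by a form in which `X_{last}^d`, `d > 0`, occurs, is zero -/
private lemma eq_zero_of_dvd {K : Type} [Field K] {n d : ℕ} (hd : 2 ≤ d) {F : HP K n}
    (h : coeff (Finsupp.single (Fin.last (n + 1)) d) F ≠ 0) (q : MvPolynomial (Fin (n + 1)) K)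
    (hq : F ∣ rename Fin.castSucc q) : q = 0 := by
  classical
  by_contra h0
  obtain ⟨G, hG⟩ := hq
  have hq0 : (rename Fin.castSucc q : HP K n) ≠ 0 := by
    intro h1
    exact h0 (rename_injective _ (Fin.castSucc_injective _) (by rw [h1, map_zero]))
  have hF0 : F ≠ 0 := by
    rintro rfl
    simp at h
  have hG0 : G ≠ 0 := by
    rintro rfl
    rw [mul_zero] at hG
    exact hq0 hG
  have h1 := degreeOf_mul_eq (n := Fin.last (n + 1)) hF0 hG0
  rw [← hG] at h1
  have h2 : degreeOf (Fin.last (n + 1)) (rename Fin.castSucc q : HP K n) = 0 := by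
    by_contra h3
    rw [← ne_eq, ← mem_vars_iff_degreeOf_ne_zero] at h3
    have h4 := vars_rename (Fin.castSucc : Fin (n + 1) → Fin (n + 2)) q h3
    obtain ⟨a, -, ha⟩ := Finset.mem_image.1 h4
    exact Fin.castSucc_ne_last a ha
  have h5 : d ≤ degreeOf (Fin.last (n + 1)) F := by
    have := monomial_le_degreeOf (Fin.last (n + 1)) (mem_support_iff.2 h)
    simpa using this
  omega

/-- A0 -/
theorem exists_FF {K : Type} [Field K] [CharZero K] {n d : ℕ} (hn : 1 ≤ n) (hd : 2 ≤ d) {F : HP K n}
    (h : Nice d F) : Nonempty (FF d F) := by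
  classical
  have hF0 : F ≠ 0 := h.irr.ne_zero
  have hFdeg : F.totalDegree = d := h.hom.totalDegree hF0
  have hprime : Prime F := h.irr.prime
  have hI : (Ideal.span {F} : Ideal (HP K n)).IsPrime := (Ideal.span_singleton_prime hF0).2 hprime
  let R := HP K n ⧸ (Ideal.span {F} : Ideal (HP K n))
  have hR : IsDomain R := Ideal.Quotient.isDomain _
  let E := FractionRing R
  let π : HP K n →ₐ[K] E := (IsScalarTower.toAlgHom K R E).comp (Ideal.Quotient.mkₐ K _)
  have hπ : ∀ P : HP K n, π P = 0 ↔ F ∣ P := by
    intro P
    have h1 : π P = algebraMap R E (Ideal.Quotient.mk _ P) := rfl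
    rw [h1, map_eq_zero_iff _ (IsFractionRing.injective R E), Ideal.Quotient.eq_zero_iff_mem,
      Ideal.mem_span_singleton]
  have hπX : ∀ P : HP K n, π P = aeval (fun i => π (X i)) P := by
    intro P
    have : π = aeval (fun i => π (X i)) := by
      ext i
      simp
    exact congrArg (fun f => f P) this
  have hXne : ∀ i, π (X i) ≠ 0 := by
    intro i hi
    obtain ⟨G, hG⟩ := (hπ _).1 hi
    have hG0 : G ≠ 0 := by
      rintro rfl
      rw [mul_zero] at hG
      exact X_ne_zero i hG
    have h1 := totalDegree_mul_of_isDomain hF0 hG0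
    rw [← hG, totalDegree_X, hFdeg] at h1
    omega
  let y : Fin (n + 2) → E := fun i => (π (X 0))⁻¹ * π (X i)
  have hy0 : y 0 = 1 := inv_mul_cancel₀ (hXne 0)
  have hyne : ∀ i, y i ≠ 0 := fun i => mul_ne_zero (inv_ne_zero (hXne 0)) (hXne i)
  have hyker : ∀ (s : ℕ) (P : HP K n), P.IsHomogeneous s → (aeval y P = 0 ↔ F ∣ P) := by
    intro s P hP
    rw [← hπ, hπX P]
    change aeval (fun i => (π (X 0))⁻¹ * π (X i)) P = 0 ↔ _
    rw [aeval_scale _ _ s P hP, mul_eq_zero, or_iff_right]
    exact pow_ne_zero _ (inv_ne_zero (hXne 0))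
  let L := IntermediateField.adjoin K (Set.range y)
  let x : Fin (n + 2) → L := fun i => ⟨y i, IntermediateField.subset_adjoin _ _ ⟨i, rfl⟩⟩
  have hx : ∀ i, (x i : E) = y i := fun i => rfl
  have hxa : ∀ P : HP K n, ((aeval x P : L) : E) = aeval y P := by
    intro P
    have h1 := map_aeval (R := K) x (algebraMap L E) P
    have h2 : ((algebraMap L E) (aeval x P)) = aeval y P := by
      rw [h1]
      rfl
    exact h2
  have hx0 : x 0 = 1 := Subtype.ext hy0
  have hker : ∀ (s : ℕ) (P : HP K n), P.IsHomogeneous s → (aeval x P = 0 ↔ F ∣ P) := by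
    intro s P hP
    rw [← hyker s P hP, ← hxa]
    exact (ZeroMemClass.coe_eq_zero).symm
  have hchar : CharZero L := charZero_of_injective_algebraMap (algebraMap K L).injective
  -- algebraic independence
  have hind : AlgebraicIndependent K (fun l : Fin n => x l.succ.castSucc) := by
    rw [algebraicIndependent_iff]
    intro p hp
    set s := p.totalDegree with hs
    set q : MvPolynomial (Fin (n + 1)) K := ∑ j ∈ Finset.range (s + 1),
      X 0 ^ (s - j) * rename Fin.succ (homogeneousComponent j p) with hq
    have hqh : q.IsHomogeneous s := by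
      refine IsHomogeneous.sum _ _ _ fun j hj => ?_
      have h1 := (isHomogeneous_X_pow (R := K) (0 : Fin (n + 1)) (s - j)).mul
        ((homogeneousComponent_isHomogeneous j p).rename_isHomogeneous (f := Fin.succ))
      have h2 : s - j + j = s := by
        have := Finset.mem_range.1 hj
        omega
      rwa [h2] at h1
    have hev : ∀ {B : Type} [CommRing B] [Algebra K B] (g : Fin (n + 1) → B), g 0 = 1 →
        aeval g q = aeval (fun l => g (Fin.succ l)) p := by
      intro B _ _ g hg
      rw [hq, map_sum]
      conv_rhs => rw [← sum_homogeneousComponent p, map_sum]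
      refine Finset.sum_congr rfl fun j _ => ?_
      rw [map_mul, map_pow, aeval_X, hg, one_pow, one_mul, aeval_rename]
      rfl
    have h1 : aeval x (rename Fin.castSucc q : HP K n) = 0 := by
      rw [aeval_rename, hev _ (by simpa using hx0)]
      exact hp
    have h2 : q = 0 := eq_zero_of_dvd hd (h.diag _) q
      ((hker s _ (hqh.rename_isHomogeneous (f := Fin.castSucc))).1 h1)
    have h3 := hev (B := MvPolynomial (Fin n) K) (Fin.cons 1 X) rfl
    rw [h2, map_zero] at h3
    simpa using h3.symm
  have hpar : ∀ l : Fin n, ∃ D : Derivation K L L, ∀ l' : Fin n,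
      D (x l'.succ.castSucc) = if l = l' then 1 else 0 := by
    intro l
    exact exists_der _ hind _
  choose par hpar using hpar
  exact ⟨{ L := L
           x := x
           x_zero := hx0
           x_ne := fun i hi => hyne i (by rw [← hx, hi]; rfl)
           ker := hker
           gen := by
             intro u
             obtain ⟨r, t, hrt⟩ := (IntermediateField.mem_adjoin_range_iff K y (u : E)).1 u.2
             by_cases ht : aeval x t = 0
             · refine ⟨0, 0, 1, isHomogeneous_zero _ _ _, isHomogeneous_one _ _, by simp, ?_⟩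
               rw [map_zero, zero_div]
               apply Subtype.ext
               rw [hrt, ← hxa t, ht]
               simp
             · obtain ⟨r', h1, h2⟩ := exists_form x hx0 r (max r.totalDegree t.totalDegree) (le_max_left _ _)
               obtain ⟨t', h3, h4⟩ := exists_form x hx0 t (max r.totalDegree t.totalDegree) (le_max_right _ _)
               refine ⟨_, r', t', h1, h3, by rwa [h4], ?_⟩
               rw [h2, h4]
               apply Subtype.ext
               rw [hrt, ← hxa, ← hxa]
               rfl
           par := par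
           par_x := hpar }⟩

end Pool.Agent.H47.UG
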