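import Pool.Agent.H47.UG.Ch

/-!
# The generic form is nice

Irreducibility: the generic form is linear in its coefficients, so a factor which does not contain them divides two
coprime monomials; Gauss's lemma. Smoothness: at the Fermat point every monomial of large degree is in the Jacobian
ideal; Nakayama's lemma.
-/

set_option autoImplicit false

open MvPolynomial

namespace Pool.Agent.H47.UG.GenF

/-- Over a domain: a polynomial which is linear in independent coefficients is irreducible, if two of its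
monomials are coprime. -/
theorem irr_R {σ τ : Type} (S : Finset τ) (m : τ → σ →₀ ℕ) (t0 t1 : τ) (h0 : t0 ∈ S) (h1 : t1 ∈ S)
    (i0 i1 : σ) (hi : i0 ≠ i1) (d : ℕ)
    (hm0 : m t0 = Finsupp.single i0 d) (hm1 : m t1 = Finsupp.single i1 d) :
    Irreducible (∑ t ∈ S, monomial (m t) (X t : MvPolynomial τ ℂ)) := by
  classical
  set F : MvPolynomial σ (MvPolynomial τ ℂ) := ∑ t ∈ S, monomial (m t) (X t : MvPolynomial τ ℂ) with hF
  let e := commAlgEquiv ℂ σ τ
  have heF : e F = ∑ t ∈ S, C (monomial (m t) (1 : ℂ)) * X t := by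
    rw [hF, map_sum]
    refine Finset.sum_congr rfl fun t _ => ?_
    have h : (monomial (m t) (X t : MvPolynomial τ ℂ) : MvPolynomial σ (MvPolynomial τ ℂ)) =
        C (X t) * monomial (m t) 1 := by
      rw [C_mul_monomial, mul_one]
    have h2 : e (monomial (m t) (1 : MvPolynomial τ ℂ)) = C (monomial (m t) (1 : ℂ)) := by
      rw [monomial_eq, monomial_eq]
      simp only [map_one, one_mul, Finsupp.prod, map_prod, map_pow]
      exact Finset.prod_congr rfl fun x _ => by rw [commAlgEquiv_X]
    rw [h, map_mul, h2, mul_comm]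
    congr 1
    exact commAlgEquiv_C_X _
  have hcoef : ∀ t ∈ S, coeff (Finsupp.single t 1) (e F) = monomial (m t) (1 : ℂ) := by
    intro t ht
    rw [heF, coeff_sum, Finset.sum_eq_single t]
    · rw [coeff_C_mul, coeff_X, if_pos rfl, mul_one]
    · intro b _ hb
      rw [coeff_C_mul, coeff_X, if_neg, mul_zero]
      intro h
      exact hb (Finsupp.single_left_injective one_ne_zero h)
    · intro h
      exact absurd ht h
  have hne : e F ≠ 0 := by
    intro h
    have := hcoef t0 h0
    rw [h, coeff_zero] at this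
    exact one_ne_zero (monomial_eq_zero.mp this.symm)
  have hdeg : (e F).totalDegree ≤ 1 := by
    rw [heF]
    refine (totalDegree_finsetSum _ _).trans (Finset.sup_le fun t _ => ?_)
    refine (totalDegree_mul _ _).trans ?_
    rw [totalDegree_C, totalDegree_X]
  have key : ∀ (g : MvPolynomial σ ℂ) (H : MvPolynomial τ (MvPolynomial σ ℂ)), e F = C g * H → IsUnit g := by
    intro g H h
    have hd : ∀ t ∈ S, g ∣ monomial (m t) (1 : ℂ) := by
      intro t ht
      rw [← hcoef t ht, h, coeff_C_mul]
      exact Dvd.intro _ rfl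
    have e0 := hd t0 h0
    have e1 := hd t1 h1
    rw [hm0, ← X_pow_eq_monomial] at e0
    rw [hm1, ← X_pow_eq_monomial] at e1
    obtain ⟨k, _, hk⟩ := (dvd_prime_pow (X_prime (R := ℂ) (i := i0)) d).mp e0
    rcases Nat.eq_zero_or_pos k with hk0 | hk0
    · rw [hk0, pow_zero] at hk
      exact hk.symm.isUnit isUnit_one
    · exfalso
      have h3 : (X i0 : MvPolynomial σ ℂ) ∣ X i1 ^ d :=
        (dvd_pow_self _ hk0.ne').trans (hk.symm.dvd.trans e1)
      have h4 := X_prime.dvd_of_dvd_pow h3
      exact hi (X_dvd_X.mp h4)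
  rw [← MulEquiv.irreducible_iff e]
  refine ⟨?_, ?_⟩
  · intro hu
    have h := hu.map (constantCoeff (R := MvPolynomial σ ℂ) (σ := τ))
    rw [heF, map_sum, Finset.sum_eq_zero] at h
    · exact not_isUnit_zero h
    · intro t _
      rw [map_mul, constantCoeff_X, mul_zero]
  · intro G H h
    have hG : G ≠ 0 := by rintro rfl; rw [zero_mul] at h; exact hne h
    have hH : H ≠ 0 := by rintro rfl; rw [mul_zero] at h; exact hne h
    have hs : G.totalDegree + H.totalDegree ≤ 1 := by
      rw [← totalDegree_mul_of_isDomain hG hH, ← h]; exact hdeg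
    rcases Nat.eq_zero_or_pos G.totalDegree with hg | hg
    · left
      rw [totalDegree_eq_zero_iff_eq_C] at hg
      rw [hg] at h ⊢
      exact (key _ _ h).map C
    · right
      have hg' : H.totalDegree = 0 := by omega
      rw [totalDegree_eq_zero_iff_eq_C] at hg'
      rw [hg', mul_comm] at h
      rw [hg']
      exact (key _ _ h).map C

/-- The same over the fraction field. -/
theorem irr_K {σ τ : Type} (S : Finset τ) (m : τ → σ →₀ ℕ) (t0 t1 : τ) (h0 : t0 ∈ S) (h1 : t1 ∈ S)
    (i0 i1 : σ) (hi : i0 ≠ i1) (d : ℕ) (hd : d ≠ 0)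
    (hm0 : m t0 = Finsupp.single i0 d) (hm1 : m t1 = Finsupp.single i1 d)
    (hinj : ∀ t ∈ S, m t = m t0 → t = t0) :
    Irreducible (∑ t ∈ S, monomial (m t)
      (algebraMap (MvPolynomial τ ℂ) (FractionRing (MvPolynomial τ ℂ)) (X t))) := by
  classical
  have hirr := irr_R S m t0 t1 h0 h1 i0 i1 hi d hm0 hm1
  set F : MvPolynomial σ (MvPolynomial τ ℂ) := ∑ t ∈ S, monomial (m t) (X t : MvPolynomial τ ℂ) with hF
  have hprime : Prime F := hirr.prime
  let := algebraMvPolynomial (σ := σ) (R := MvPolynomial τ ℂ) (S := FractionRing (MvPolynomial τ ℂ))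
  let M := nonZeroDivisors (MvPolynomial τ ℂ)
  have : IsLocalization (M.map (C (σ := σ) (R := MvPolynomial τ ℂ)))
      (MvPolynomial σ (FractionRing (MvPolynomial τ ℂ))) := MvPolynomial.isLocalization M _
  have hcoef : coeff (m t0) F = X t0 := by
    rw [hF, coeff_sum, Finset.sum_eq_single t0]
    · rw [coeff_monomial, if_pos rfl]
    · intro b hb hb'
      rw [coeff_monomial, if_neg]
      intro h
      exact hb' (hinj b hb h)
    · intro h
      exact absurd h0 h
  have hdis : Disjoint ((M.map (C (σ := σ) (R := MvPolynomial τ ℂ)) : Submonoid _) :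
      Set (MvPolynomial σ (MvPolynomial τ ℂ))) (Ideal.span {F} : Ideal _) := by
    rw [Set.disjoint_left]
    rintro _ ⟨r, hr, rfl⟩ hmem
    have hr0 : r ≠ 0 := nonZeroDivisors.ne_zero hr
    obtain ⟨Q, hQ⟩ := Ideal.mem_span_singleton.mp hmem
    have hC : (C r : MvPolynomial σ (MvPolynomial τ ℂ)) ≠ 0 := fun h => hr0 (C_eq_zero.mp h)
    have hQ0 : Q ≠ 0 := by
      rintro rfl
      rw [mul_zero] at hQ
      exact hC hQ
    have h1 : (0 : ℕ) = F.totalDegree + Q.totalDegree := by
      rw [← totalDegree_mul_of_isDomain hprime.ne_zero hQ0]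
      rw [← hQ]
      exact (totalDegree_C r).symm
    have h2 : d ≤ F.totalDegree := by
      have h3 : m t0 ∈ F.support := by
        rw [mem_support_iff, hcoef]
        exact X_ne_zero t0
      have h4 := le_totalDegree h3
      rw [hm0, Finsupp.sum_single_index rfl] at h4
      exact h4
    omega
  have hp := IsLocalization.isPrime_of_isPrime_disjoint (M.map (C (σ := σ) (R := MvPolynomial τ ℂ)))
    (MvPolynomial σ (FractionRing (MvPolynomial τ ℂ))) (Ideal.span {F})
    ((Ideal.span_singleton_prime hprime.ne_zero).mpr hprime) hdis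
  rw [Ideal.map_span, Set.image_singleton] at hp
  have hmap : algebraMap (MvPolynomial σ (MvPolynomial τ ℂ)) (MvPolynomial σ (FractionRing (MvPolynomial τ ℂ))) F =
      ∑ t ∈ S, monomial (m t) (algebraMap (MvPolynomial τ ℂ) (FractionRing (MvPolynomial τ ℂ)) (X t)) := by
    change map (algebraMap (MvPolynomial τ ℂ) (FractionRing (MvPolynomial τ ℂ))) F = _
    rw [hF, map_sum]
    exact Finset.sum_congr rfl fun t _ => map_monomial _ _ _
  rw [hmap] at hp
  have hne : (∑ t ∈ S, monomial (m t) (algebraMap (MvPolynomial τ ℂ) (FractionRing (MvPolynomial τ ℂ)) (X t)) :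
      MvPolynomial σ (FractionRing (MvPolynomial τ ℂ))) ≠ 0 := by
    rw [← hmap]
    intro h
    have : map (algebraMap (MvPolynomial τ ℂ) (FractionRing (MvPolynomial τ ℂ))) F = 0 := h
    rw [← map_zero (map (algebraMap (MvPolynomial τ ℂ) (FractionRing (MvPolynomial τ ℂ))))] at this
    exact hprime.ne_zero (map_injective _ (IsFractionRing.injective _ _) this)
  exact ((Ideal.span_singleton_prime hne).mp hp).irreducible


/-- The ring of the coefficients. -/
abbrev RR (n : ℕ) := MvPolynomial ((Fin (n + 2)) →₀ ℕ) ℂ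

/-- The generic form over the ring of the coefficients. -/
noncomputable def FR (n d : ℕ) : MvPolynomial (Fin (n + 2)) (RR n) :=
  ∑ a ∈ (Finset.finsuppAntidiag Finset.univ d : Finset (Fin (n + 2) →₀ ℕ)), monomial a (X a)

theorem map_FR (n d : ℕ) : map (algebraMap (RR n) (FractionRing (RR n))) (FR n d) = genForm n d := by
  rw [FR, genForm, map_sum]
  exact Finset.sum_congr rfl fun t _ => map_monomial _ _ _

theorem pderiv_FR (n d : ℕ) (i : Fin (n + 2)) : pderiv i (FR n d) =
    ∑ a ∈ (Finset.finsuppAntidiag Finset.univ d : Finset (Fin (n + 2) →₀ ℕ)),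
      monomial (a - Finsupp.single i 1) (X a * (a i : RR n)) := by
  rw [FR, map_sum]
  exact Finset.sum_congr rfl fun t _ => pderiv_monomial

/-- The Fermat point. -/
noncomputable def ev (n d : ℕ) : RR n →+* ℂ :=
  eval fun a => if ∃ j, a = Finsupp.single j d then 1 else 0

theorem exists_big {n d N : ℕ} (hN : N = (n + 2) * (d - 1)) (b : Fin (n + 2) →₀ ℕ)
    (hb : b.degree = N) : ∃ i, Finsupp.single i (d - 1) ≤ b := by
  by_contra h
  push Not at h
  have h1 : ∀ i, b i < d - 1 := by
    intro i
    by_contra h2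
    push Not at h2
    exact h i (Finsupp.single_le_iff.mpr h2)
  have h3 : b.degree < (n + 2) * (d - 1) := by
    rw [Finsupp.degree_eq_sum]
    calc ∑ i, b i < ∑ _i : Fin (n + 2), (d - 1) := Finset.sum_lt_sum_of_nonempty Finset.univ_nonempty fun i _ => h1 i
      _ = (n + 2) * (d - 1) := by simp
  omega

/-- the monomials of degree `N` -/
def Ms (n N : ℕ) : Set (MvPolynomial (Fin (n + 2)) (RR n)) := {v | ∃ b : Fin (n + 2) →₀ ℕ, b.degree = N ∧ v = monomial b 1}

theorem Ms_finite (n N : ℕ) : (Ms n N).Finite := by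
  classical
  refine Set.Finite.subset ((Finset.finsuppAntidiag Finset.univ N : Finset (Fin (n + 2) →₀ ℕ)).image
    fun b => (monomial b 1 : MvPolynomial (Fin (n + 2)) (RR n))).finite_toSet ?_
  rintro v ⟨b, hb, rfl⟩
  rw [Finset.mem_coe, Finset.mem_image]
  refine ⟨b, ?_, rfl⟩
  rw [Finset.mem_finsuppAntidiag]
  refine ⟨?_, Finset.subset_univ _⟩
  rw [← hb, Finsupp.degree_eq_sum]

/-- the Jacobian ideal -/
noncomputable def JJ (n d : ℕ) : Ideal (MvPolynomial (Fin (n + 2)) (RR n)) :=
  Ideal.span (Set.range fun j => pderiv j (FR n d))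

theorem red {n d N : ℕ} (hd : 2 ≤ d) (b : Fin (n + 2) →₀ ℕ) (hb : b.degree = N) (i : Fin (n + 2))
    (hi : Finsupp.single i (d - 1) ≤ b) :
    Ideal.Quotient.mk (JJ n d) (monomial b 1) ∈ RingHom.ker (ev n d) •
      Submodule.span (RR n) (Ideal.Quotient.mk (JJ n d) '' Ms n N) := by
  classical
  set W : Submodule (RR n) (MvPolynomial (Fin (n + 2)) (RR n) ⧸ JJ n d) :=
    Submodule.span (RR n) (Ideal.Quotient.mk (JJ n d) '' Ms n N) with hW
  obtain ⟨c, hc⟩ : ∃ c, b = c + Finsupp.single i (d - 1) := ⟨b - Finsupp.single i (d - 1), (tsub_add_cancel_of_le hi).symm⟩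
  have hcd : c.degree + (d - 1) = N := by
    rw [← hb, hc, map_add, Finsupp.degree_single]
  -- every term
  have hterm : ∀ a ∈ (Finset.finsuppAntidiag Finset.univ d : Finset (Fin (n + 2) →₀ ℕ)), a ≠ Finsupp.single i d →
      Ideal.Quotient.mk (JJ n d) (monomial c 1 * monomial (a - Finsupp.single i 1) (X a * (a i : RR n))) ∈
        RingHom.ker (ev n d) • W := by
    intro a ha hne
    rcases Nat.eq_zero_or_pos (a i) with h0 | h0
    · rw [h0, Nat.cast_zero, mul_zero, monomial_zero, mul_zero, map_zero]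
      exact Submodule.zero_mem _
    · have h1 : monomial c (1 : RR n) * monomial (a - Finsupp.single i 1) (X a * (a i : RR n)) =
          (X a * (a i : RR n)) • monomial (c + (a - Finsupp.single i 1)) (1 : RR n) := by
        rw [monomial_mul, one_mul, smul_monomial, smul_eq_mul, mul_one]
      have h2 : Ideal.Quotient.mk (JJ n d) ((X a * (a i : RR n)) • monomial (c + (a - Finsupp.single i 1)) (1 : RR n)) =
          (X a * (a i : RR n)) • Ideal.Quotient.mk (JJ n d) (monomial (c + (a - Finsupp.single i 1)) (1 : RR n)) := rfl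
      rw [h1, h2]
      refine Submodule.smul_mem_smul ?_ (Submodule.subset_span ⟨_, ⟨_, ?_, rfl⟩, rfl⟩)
      · rw [RingHom.mem_ker, map_mul, ev, eval_X, if_neg, zero_mul]
        rintro ⟨j, rfl⟩
        rcases eq_or_ne j i with h | h
        · exact hne (by rw [h])
        · rw [Finsupp.single_eq_of_ne h.symm] at h0
          exact lt_irrefl _ h0
      · have h3 : a.degree = d := by
          rw [Finsupp.degree_eq_sum]
          exact (Finset.mem_finsuppAntidiag.mp ha).1
        have h4 : Finsupp.single i 1 ≤ a := Finsupp.single_le_iff.mpr h0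
        have h5 : (a - Finsupp.single i 1).degree + 1 = d := by
          have h6 : (a - Finsupp.single i 1 + Finsupp.single i 1).degree = d := by
            rw [tsub_add_cancel_of_le h4]; exact h3
          rwa [map_add, Finsupp.degree_single] at h6
        rw [map_add]
        omega
  -- the sum
  have hmem : Finsupp.single i d ∈ (Finset.finsuppAntidiag Finset.univ d : Finset (Fin (n + 2) →₀ ℕ)) := by
    rw [Finset.mem_finsuppAntidiag]
    exact ⟨by simp, Finset.subset_univ _⟩
  have hzero : Ideal.Quotient.mk (JJ n d) (monomial c 1 * pderiv i (FR n d)) = 0 := by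
    rw [Ideal.Quotient.eq_zero_iff_mem]
    exact Ideal.mul_mem_left _ _ (Ideal.subset_span ⟨i, rfl⟩)
  rw [pderiv_FR, Finset.mul_sum, map_sum, ← Finset.add_sum_erase _ _ hmem] at hzero
  have hsum : ∑ a ∈ (Finset.finsuppAntidiag Finset.univ d : Finset (Fin (n + 2) →₀ ℕ)).erase (Finsupp.single i d),
      Ideal.Quotient.mk (JJ n d) (monomial c 1 * monomial (a - Finsupp.single i 1) (X a * (a i : RR n))) ∈
        RingHom.ker (ev n d) • W :=
    Submodule.sum_mem _ fun a ha => hterm a (Finset.mem_of_mem_erase ha) (Finset.ne_of_mem_erase ha)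
  have hb1 : Ideal.Quotient.mk (JJ n d) (monomial b 1) ∈ W := Submodule.subset_span ⟨_, ⟨b, hb, rfl⟩, rfl⟩
  have hmain : monomial c (1 : RR n) * monomial (Finsupp.single i d - Finsupp.single i 1)
      (X (Finsupp.single i d) * ((Finsupp.single i d : Fin (n + 2) →₀ ℕ) i : RR n)) =
      (X (Finsupp.single i d) * (d : RR n)) • monomial b (1 : RR n) := by
    have h7 : (Finsupp.single i d - Finsupp.single i 1 : Fin (n + 2) →₀ ℕ) = Finsupp.single i (d - 1) := by
      rw [← Finsupp.single_tsub]
    rw [Finsupp.single_eq_same, h7, monomial_mul, one_mul, smul_monomial, smul_eq_mul, mul_one, ← hc]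
  rw [hmain] at hzero
  have hz2 : (X (Finsupp.single i d) * (d : RR n)) • Ideal.Quotient.mk (JJ n d) (monomial b 1) ∈
      RingHom.ker (ev n d) • W := by
    have h8 : (X (Finsupp.single i d) * (d : RR n)) • Ideal.Quotient.mk (JJ n d) (monomial b 1) =
        -∑ a ∈ (Finset.finsuppAntidiag Finset.univ d : Finset (Fin (n + 2) →₀ ℕ)).erase (Finsupp.single i d),
      Ideal.Quotient.mk (JJ n d) (monomial c 1 * monomial (a - Finsupp.single i 1) (X a * (a i : RR n))) :=
      eq_neg_of_add_eq_zero_left hzero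
    rw [h8]
    exact Submodule.neg_mem _ hsum
  -- division by `d`
  have hdC : (d : ℂ) ≠ 0 := by
    have : d ≠ 0 := by omega
    exact_mod_cast this
  have hz3 : (X (Finsupp.single i d) : RR n) • Ideal.Quotient.mk (JJ n d) (monomial b 1) ∈ RingHom.ker (ev n d) • W := by
    have h9 := Submodule.smul_mem (RingHom.ker (ev n d) • W) (C ((d : ℂ)⁻¹) : RR n) hz2
    rw [smul_smul] at h9
    have h10 : (C ((d : ℂ)⁻¹) : RR n) * (X (Finsupp.single i d) * (d : RR n)) = X (Finsupp.single i d) := by
      have : (d : RR n) = C (d : ℂ) := (map_natCast (C : ℂ →+* RR n) d).symm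
      rw [this, mul_comm (X _) _, ← mul_assoc, ← C_mul, inv_mul_cancel₀ hdC, C_1, one_mul]
    rwa [h10] at h9
  have hz4 : ((1 : RR n) - X (Finsupp.single i d)) • Ideal.Quotient.mk (JJ n d) (monomial b 1) ∈
      RingHom.ker (ev n d) • W := by
    refine Submodule.smul_mem_smul ?_ hb1
    rw [RingHom.mem_ker, map_sub, map_one, ev, eval_X, if_pos ⟨i, rfl⟩, sub_self]
  have h11 := Submodule.add_mem _ hz4 hz3
  rw [← add_smul, sub_add_cancel, one_smul] at h11
  exact h11

theorem smooth {n d : ℕ} (hd : 2 ≤ d) : ∃ N : ℕ, ∀ i,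
    (X i : HP (FractionRing (RR n)) n) ^ N ∈ Ideal.span (Set.range fun j => pderiv j (genForm n d)) := by
  classical
  refine ⟨(n + 2) * (d - 1), fun i => ?_⟩
  set N := (n + 2) * (d - 1) with hN
  set W : Submodule (RR n) (MvPolynomial (Fin (n + 2)) (RR n) ⧸ JJ n d) :=
    Submodule.span (RR n) (Ideal.Quotient.mk (JJ n d) '' Ms n N) with hW
  have hfg : W.FG := Submodule.fg_span ((Ms_finite n N).image _)
  have hle : W ≤ RingHom.ker (ev n d) • W := by
    rw [hW, Submodule.span_le]
    rintro _ ⟨_, ⟨b, hb, rfl⟩, rfl⟩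
    obtain ⟨j, hj⟩ := exists_big hN b hb
    exact red hd b hb j hj
  obtain ⟨r, hr, hr2⟩ := Submodule.exists_sub_one_mem_and_smul_eq_zero_of_fg_of_le_smul _ _ hfg hle
  have hr0 : r ≠ 0 := by
    rintro rfl
    rw [RingHom.mem_ker, map_sub, map_zero, map_one, zero_sub, neg_eq_zero] at hr
    exact one_ne_zero hr
  have h1 := hr2 (Ideal.Quotient.mk (JJ n d) (monomial (Finsupp.single i N) 1))
    (Submodule.subset_span ⟨_, ⟨_, Finsupp.degree_single _ _, rfl⟩, rfl⟩)
  have h2 : C r * X i ^ N ∈ JJ n d := by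
    rw [← Ideal.Quotient.eq_zero_iff_mem, ← h1, X_pow_eq_monomial, ← smul_eq_C_mul]
    rfl
  have h3 := Ideal.mem_map_of_mem (map (σ := Fin (n + 2)) (algebraMap (RR n) (FractionRing (RR n)))) h2
  rw [JJ, Ideal.map_span, map_mul, map_C, map_pow, map_X, ← Set.range_comp] at h3
  have h4 : ((map (σ := Fin (n + 2)) (algebraMap (RR n) (FractionRing (RR n)))) ∘ fun j => pderiv j (FR n d)) =
      fun j => pderiv j (genForm n d) := by
    funext j
    rw [Function.comp_apply, ← pderiv_map, map_FR]
  rw [h4] at h3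
  have h5 : (algebraMap (RR n) (FractionRing (RR n)) r) ≠ 0 := by
    intro h
    exact hr0 ((IsFractionRing.injective (RR n) (FractionRing (RR n))) (by rw [h, map_zero]))
  have h6 := Ideal.mul_mem_left _ (C (algebraMap (RR n) (FractionRing (RR n)) r)⁻¹ : HP (FractionRing (RR n)) n) h3
  rwa [← mul_assoc, ← C_mul, inv_mul_cancel₀ h5, C_1, one_mul] at h6

end Pool.Agent.H47.UG.GenF

namespace Pool.Agent.H47.UG

open GenF

theorem genForm_coeff {n d : ℕ} (a : Fin (n + 2) →₀ ℕ) (ha : a.degree = d) :
    coeff a (genForm n d) = algebraMap (RR n) (FractionRing (RR n)) (X a) := by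
  classical
  have hmem : a ∈ (Finset.finsuppAntidiag Finset.univ d : Finset (Fin (n + 2) →₀ ℕ)) := by
    rw [Finset.mem_finsuppAntidiag, ← Finsupp.degree_eq_sum]
    exact ⟨ha, Finset.subset_univ _⟩
  rw [genForm, coeff_sum, Finset.sum_eq_single a]
  · rw [coeff_monomial, if_pos rfl]
  · intro b _ hb
    rw [coeff_monomial, if_neg hb]
  · intro h
    exact absurd hmem h

theorem genForm_hom (n d : ℕ) : (genForm n d).IsHomogeneous d := by
  refine IsHomogeneous.sum _ _ _ fun a ha => isHomogeneous_monomial _ ?_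
  rw [Finset.mem_finsuppAntidiag, ← Finsupp.degree_eq_sum] at ha
  exact ha.1

theorem genForm_irr0 {n d : ℕ} (hn : 2 ≤ n) (hd : 2 ≤ d) :
    Irreducible (aeval (Fin.cons 0 X : Fin (n + 2) → MvPolynomial (Fin (n + 1)) (FractionRing (RR n)))
      (genForm n d)) := by
  classical
  have h1 : aeval (Fin.cons 0 X : Fin (n + 2) → MvPolynomial (Fin (n + 1)) (FractionRing (RR n))) (genForm n d) =
      ∑ a ∈ (Finset.finsuppAntidiag Finset.univ d : Finset (Fin (n + 2) →₀ ℕ)).filter (fun a => a 0 = 0),
        monomial (Finsupp.tail a) (algebraMap (RR n) (FractionRing (RR n)) (X a)) := by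
    rw [genForm, map_sum, Finset.sum_filter]
    refine Finset.sum_congr rfl fun a _ => ?_
    rw [aeval_monomial, Finsupp.prod_fintype _ _ (fun i => pow_zero _), Fin.prod_univ_succ]
    simp only [Fin.cons_zero, Fin.cons_succ]
    split_ifs with h
    · rw [h, pow_zero, one_mul, monomial_eq, Finsupp.prod_fintype _ _ (fun i => pow_zero _)]
      rfl
    · rw [zero_pow h, zero_mul, mul_zero]
  rw [h1]
  have ht0 : ∀ j : Fin (n + 1), Finsupp.tail (Finsupp.single j.succ d : Fin (n + 2) →₀ ℕ) = Finsupp.single j d := by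
    intro j
    ext i
    rw [Finsupp.tail_apply, Finsupp.single_apply, Finsupp.single_apply]
    simp only [Fin.succ_inj]
  have hm : ∀ j : Fin (n + 1), (Finsupp.single j.succ d : Fin (n + 2) →₀ ℕ) ∈
      (Finset.finsuppAntidiag Finset.univ d : Finset (Fin (n + 2) →₀ ℕ)).filter (fun a => a 0 = 0) := by
    intro j
    rw [Finset.mem_filter, Finset.mem_finsuppAntidiag, ← Finsupp.degree_eq_sum, Finsupp.degree_single]
    refine ⟨⟨rfl, Finset.subset_univ _⟩, ?_⟩
    rw [Finsupp.single_apply, if_neg (Fin.succ_ne_zero j)]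
  have hnn : (0 : Fin (n + 1)) ≠ 1 := by
    intro h
    have := congrArg Fin.val h
    rw [Fin.val_zero, Fin.val_one', Nat.mod_eq_of_lt (by omega)] at this
    omega
  refine irr_K _ Finsupp.tail (Finsupp.single (Fin.succ 0) d) (Finsupp.single (Fin.succ 1) d) (hm 0) (hm 1)
    0 1 hnn d (by omega) (ht0 0) (ht0 1) ?_
  intro t ht h
  rw [Finset.mem_filter] at ht
  rw [← Finsupp.cons_tail t, h, ht.2, ht0, ← Finsupp.cons_tail (Finsupp.single (Fin.succ 0) d), ht0,
    Finsupp.single_apply, if_neg (Fin.succ_ne_zero 0)]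

theorem genForm_irr {n d : ℕ} (hd : 2 ≤ d) : Irreducible (genForm n d) := by
  have hm : ∀ j : Fin (n + 2), (Finsupp.single j d : Fin (n + 2) →₀ ℕ) ∈
      (Finset.finsuppAntidiag Finset.univ d : Finset (Fin (n + 2) →₀ ℕ)) := by
    intro j
    rw [Finset.mem_finsuppAntidiag, ← Finsupp.degree_eq_sum, Finsupp.degree_single]
    exact ⟨rfl, Finset.subset_univ _⟩
  exact irr_K _ id (Finsupp.single 0 d) (Finsupp.single 1 d) (hm 0) (hm 1)
    0 1 Fin.zero_ne_one d (by omega) rfl rfl fun t _ h => h

/-- The generic form of degree `d ≥ 2` in `n + 2` variables has all the properties. -/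
theorem nice_gen {n d : ℕ} (hn : 2 ≤ n) (hd : 2 ≤ d) : Nice d (genForm n d) where
  hom := genForm_hom n d
  irr := genForm_irr hd
  smooth := smooth hd
  diag j := by
    rw [genForm_coeff _ (Finsupp.degree_single _ _)]
    intro h
    exact X_ne_zero (R := ℂ) _ ((IsFractionRing.injective (RR n) (FractionRing (RR n))) (by rw [h, map_zero]))
  irr0 := genForm_irr0 hn hd

end Pool.Agent.H47.UG
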