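import Pool.Agent.H47.UG.Alg

/-!
# The lattices `Gr`, `GP`, `E` are families of modules over the rings of the charts
-/

set_option autoImplicit false
set_option linter.unusedSectionVars false
set_option linter.unusedVariables false

open MvPolynomial

namespace Pool.Agent.H47.UG.FF

variable {K : Type} [Field K] [CharZero K] {n d : ℕ} {F : HP K n} (T : FF d F) (hF : Nice d F)

include hF

theorem stable_GG (k : ℕ) (e : ℤ) (m q : ℕ) : T.Stable (T.GG k e m q) := by
  intro i a ha v hv
  unfold GG at hv ⊢
  induction hv using Submodule.span_induction with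
  | mem v hv =>
    obtain ⟨b, hb, s, l, hs, rfl⟩ := hv
    refine Submodule.subset_span ⟨a * b, mul_mem ha hb, s, l, hs, ?_⟩
    rw [Algebra.smul_def, algebraMap_eq, ← mul_assoc, ← C_mul]
    congr 2
    ring
  | zero => rw [smul_zero]; exact Submodule.zero_mem _
  | add v w _ _ h1 h2 => rw [smul_add]; exact Submodule.add_mem _ h1 h2
  | smul c v _ h1 => rw [smul_comm]; exact Submodule.smul_mem _ c h1

theorem stable_GP (k p : ℕ) (e : ℤ) (m q : ℕ) : T.Stable (T.GP k p e m q) := by
  intro i a ha v hv
  unfold GP at hv ⊢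
  induction hv using Submodule.span_induction with
  | mem v hv =>
    obtain ⟨c, m', q', g, hg, hq, hm, rfl⟩ := hv
    refine Submodule.subset_span ⟨c, m', q', a • g, stable_GG T hF k _ m' q' i a ha g hg, hq, hm, ?_⟩
    rw [mul_smul_comm]
  | zero => rw [smul_zero]; exact Submodule.zero_mem _
  | add v w _ _ h1 h2 => rw [smul_add]; exact Submodule.add_mem _ h1 h2
  | smul c v _ h1 => rw [smul_comm]; exact Submodule.smul_mem _ c h1

theorem stable_EE (k : ℕ) (e : ℤ) (m : ℕ) : T.Stable (T.EE k e m) := by
  intro i a ha v hv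
  unfold EE at hv ⊢
  induction hv using Submodule.span_induction with
  | mem v hv =>
    obtain ⟨b, hb, q, s, l, hs, rfl⟩ := hv
    refine Submodule.subset_span ⟨a * b, mul_mem ha hb, q, s, l, hs, ?_⟩
    rw [Algebra.smul_def, algebraMap_eq, ← mul_assoc, ← C_mul]
    congr 2
    ring
  | zero => rw [smul_zero]; exact Submodule.zero_mem _
  | add v w _ _ h1 h2 => rw [smul_add]; exact Submodule.add_mem _ h1 h2
  | smul c v _ h1 => rw [smul_comm]; exact Submodule.smul_mem _ c h1

theorem GP_zero (k : ℕ) (e : ℤ) (m q : ℕ) : T.GP k 0 e m q = T.GG k e m q := by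
  funext i
  refine le_antisymm ?_ ?_
  · refine Submodule.span_le.2 ?_
    rintro v ⟨c, m', q', g, hg, hq, hm, rfl⟩
    simp only [zero_mul, add_zero, Finset.univ_eq_empty, Finset.sum_empty, Finset.prod_empty, one_mul,
      Nat.cast_zero] at hg hq hm ⊢
    subst hq hm
    exact hg
  · intro v hv
    refine Submodule.subset_span ⟨Fin.elim0, m, q, v, ?_, ?_, ?_, ?_⟩
    · simpa using hv
    · simp
    · simp
    · simp

end Pool.Agent.H47.UG.FF
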