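import Pool.Agent.H47.UG.Ch

/-! SYMB: the leading part of the iterates of the total derivative. -/

set_option autoImplicit false

open MvPolynomial

namespace Pool.Agent.H47.UG.FF

variable {K : Type} [Field K] {n d : ℕ} {F : HP K n} (T : FF d F)

section aux

private theorem sy_add (s : ℕ) (u v : T.L) : T.δ s (u + v) = T.δ s u + T.δ s v := by
  unfold δ
  rw [← Finset.sum_add_distrib]
  refine Finset.sum_congr rfl fun l _ => ?_
  rw [map_add, C_add, add_mul]

private theorem sy_D_C (u : T.L) : T.D (C u) = ∑ l, C (T.par l u) * X (0, l) := T.D_C u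

private theorem sy_wt_C (u : T.L) : IsWeightedHomogeneous FF.w (C u : T.BB) 0 := isWeightedHomogeneous_C _ _

private theorem sy_wt_X (p : ℕ × Fin n) : IsWeightedHomogeneous FF.w (X p : T.BB) (FF.w p) :=
  isWeightedHomogeneous_X _ _ _

private theorem sy_wt_δ (s : ℕ) (u : T.L) : IsWeightedHomogeneous FF.w (T.δ s u) (s + 1) := by
  unfold δ
  refine IsWeightedHomogeneous.sum _ _ _ fun l _ => ?_
  have h := (sy_wt_C T (T.par l u)).mul (sy_wt_X T (s, l))
  rw [zero_add] at h
  exact h

/-- weight `a`, with derivative of weight `a + 1` -/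
private def Gd (P : T.BB) (a : ℕ) : Prop :=
  IsWeightedHomogeneous FF.w P a ∧ IsWeightedHomogeneous FF.w (T.D P) (a + 1)

private theorem Gd_C (u : T.L) : Gd T (C u) 0 := by
  refine ⟨sy_wt_C T u, ?_⟩
  rw [T.D_C]
  exact sy_wt_δ T 0 u

private theorem Gd_X (p : ℕ × Fin n) : Gd T (X p) (FF.w p) := by
  obtain ⟨s, l⟩ := p
  refine ⟨sy_wt_X T (s, l), ?_⟩
  rw [T.D_X]
  exact sy_wt_X T (s + 1, l)

private theorem Gd_mul {P Q : T.BB} {a b : ℕ} (hP : Gd T P a) (hQ : Gd T Q b) : Gd T (P * Q) (a + b) := by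
  refine ⟨hP.1.mul hQ.1, ?_⟩
  rw [Derivation.leibniz, smul_eq_mul, smul_eq_mul]
  refine IsWeightedHomogeneous.add ?_ ?_
  · have h := hP.1.mul hQ.2
    rwa [← add_assoc] at h
  · have h := hQ.1.mul hP.2
    have e : b + (a + 1) = a + b + 1 := by ring
    rwa [e] at h

private theorem Gd_pow {P : T.BB} {a : ℕ} (hP : Gd T P a) (k : ℕ) : Gd T (P ^ k) (k * a) := by
  induction k with
  | zero =>
    rw [pow_zero, zero_mul]
    exact Gd_C T 1
  | succ k ih =>
    rw [pow_succ, add_mul, one_mul]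
    exact Gd_mul T ih hP

private theorem Gd_prod {ι : Type} (s : Finset ι) (f : ι → T.BB) (a : ι → ℕ) (h : ∀ i ∈ s, Gd T (f i) (a i)) :
    Gd T (∏ i ∈ s, f i) (∑ i ∈ s, a i) := by
  classical
  induction s using Finset.induction_on with
  | empty =>
    rw [Finset.prod_empty, Finset.sum_empty]
    exact Gd_C T 1
  | insert i s hi ih =>
    rw [Finset.prod_insert hi, Finset.sum_insert hi]
    exact Gd_mul T (h i (Finset.mem_insert_self _ _)) (ih fun j hj => h j (Finset.mem_insert_of_mem hj))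

private theorem Gd_monomial (b : ℕ × Fin n →₀ ℕ) (c : T.L) : Gd T (monomial b c) (Finsupp.weight FF.w b) := by
  rw [monomial_eq]
  have h := Gd_mul T (Gd_C T c) (Gd_prod T b.support (fun p => (X p : T.BB) ^ b p) (fun p => b p * FF.w p)
    fun p _ => Gd_pow T (Gd_X T p) (b p))
  rw [zero_add] at h
  have e : Finsupp.weight FF.w b = ∑ p ∈ b.support, b p * FF.w p := by
    rw [Finsupp.weight_apply, Finsupp.sum]
    exact Finset.sum_congr rfl fun p _ => by rw [smul_eq_mul]
  rw [e]
  exact h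

/-- `D` raises the weight by one -/
theorem D_weight {P : T.BB} {a : ℕ} (hP : IsWeightedHomogeneous FF.w P a) :
    IsWeightedHomogeneous FF.w (T.D P) (a + 1) := by
  rw [P.as_sum, map_sum]
  refine IsWeightedHomogeneous.sum _ _ _ fun b hb => ?_
  have h := (Gd_monomial T b (coeff b P)).2
  rwa [hP (mem_support_iff.1 hb)] at h

private theorem D_vars {P : T.BB} (hP : P ∈ idealOfVars (ℕ × Fin n) T.L) : T.D P ∈ idealOfVars (ℕ × Fin n) T.L := by
  refine Submodule.span_induction ?_ ?_ ?_ ?_ hP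
  · rintro _ ⟨⟨s, l⟩, rfl⟩
    rw [T.D_X]
    exact Ideal.subset_span ⟨_, rfl⟩
  · rw [map_zero]
    exact zero_mem _
  · intro x y _ _ hx hy
    rw [map_add]
    exact add_mem hx hy
  · intro a x hx hy
    rw [smul_eq_mul, Derivation.leibniz, smul_eq_mul, smul_eq_mul]
    exact add_mem (Ideal.mul_mem_left _ _ hy) (Ideal.mul_mem_right _ _ hx)

/-- `D` preserves the square of the ideal of the variables -/
theorem D_vars_sq {P : T.BB} (hP : P ∈ idealOfVars (ℕ × Fin n) T.L ^ 2) :
    T.D P ∈ idealOfVars (ℕ × Fin n) T.L ^ 2 := by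
  rw [sq] at hP ⊢
  refine Submodule.mul_induction_on hP ?_ ?_
  · intro x hx y hy
    rw [Derivation.leibniz, smul_eq_mul, smul_eq_mul]
    exact add_mem (Ideal.mul_mem_mul hx (D_vars T hy)) (Ideal.mul_mem_mul hy (D_vars T hx))
  · intro x y hx hy
    rw [map_add]
    exact add_mem hx hy

private theorem D_δ (s : ℕ) (u : T.L) : T.D (T.δ s u) - T.δ (s + 1) u ∈ idealOfVars (ℕ × Fin n) T.L ^ 2 := by
  unfold δ
  rw [map_sum, ← Finset.sum_sub_distrib]
  refine sum_mem fun l _ => ?_
  rw [Derivation.leibniz, smul_eq_mul, smul_eq_mul, T.D_X, add_sub_cancel_left, T.D_C, sq]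
  refine Ideal.mul_mem_mul (Ideal.subset_span ⟨_, rfl⟩) ?_
  unfold δ
  exact sum_mem fun l' _ => Ideal.mul_mem_left _ _ (Ideal.subset_span ⟨_, rfl⟩)

/-- SYMB, in terms of the square of the ideal of the variables -/
theorem D_iter_sub (s : ℕ) (v : T.L) :
    (T.D : T.BB → T.BB)^[s + 1] (C v) - T.δ s v ∈ idealOfVars (ℕ × Fin n) T.L ^ 2 := by
  induction s with
  | zero =>
    rw [zero_add, Function.iterate_one, T.D_C, sub_self]
    exact zero_mem _
  | succ s ih =>
    rw [Function.iterate_succ_apply']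
    have h := add_mem (D_vars_sq T ih) (D_δ T s v)
    rw [map_sub, sub_add_sub_cancel] at h
    exact h

theorem D_iter_weight (s : ℕ) (v : T.L) :
    IsWeightedHomogeneous FF.w ((T.D : T.BB → T.BB)^[s + 1] (C v)) (s + 1) := by
  induction s with
  | zero =>
    rw [zero_add, Function.iterate_one, T.D_C]
    exact sy_wt_δ T 0 v
  | succ s ih =>
    rw [Function.iterate_succ_apply']
    exact D_weight T ih

end aux

variable [CharZero K] (hF : Nice d F)

include hF

/-- SYMB -/
theorem D_iter (s : ℕ) (v : T.L) : (∀ j < 2, homogeneousComponent j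
    ((T.D : T.BB → T.BB)^[s + 1] (C v) - T.δ s v) = 0) ∧
    IsWeightedHomogeneous FF.w ((T.D : T.BB → T.BB)^[s + 1] (C v)) (s + 1) := by
  refine ⟨fun j hj => ?_, D_iter_weight T s v⟩
  have h := (mem_pow_idealOfVars_iff' _ _).1 (D_iter_sub T s v)
  ext b
  rw [coeff_homogeneousComponent, coeff_zero]
  split_ifs with h1
  · exact h b (by rw [h1]; exact hj)
  · rfl

end Pool.Agent.H47.UG.FF
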