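import Mathlib

/-!
# A `K`-subspace of `B^ι` inside an `E`-subspace of `E^ι` of dimension `r` has dimension at most `r dim B`
-/

set_option autoImplicit false

namespace Pool.Agent.H47.UG

private theorem exists_coords {E ι : Type} [Field E] [Fintype ι] (W : Submodule E (ι → E)) :
    ∃ J : Finset ι, J.card ≤ Module.finrank E W ∧ ∀ v ∈ W, (∀ j ∈ J, v j = 0) → v = 0 := by
  classical
  let φ : ι → Module.Dual E W := fun i => (LinearMap.proj i).comp W.subtype
  obtain ⟨κ, a, ha, hs, hl⟩ := exists_linearIndependent' E φ
  have : Finite κ := Finite.of_injective a ha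
  have := Fintype.ofFinite κ
  refine ⟨Finset.univ.image a, ?_, ?_⟩
  · rw [Finset.card_image_of_injective _ ha, Finset.card_univ]
    have h := hl.fintype_card_le_finrank
    rwa [Subspace.dual_finrank_eq] at h
  · intro v hv h
    have h2 : ∀ f ∈ Submodule.span E (Set.range (φ ∘ a)), f ⟨v, hv⟩ = 0 := by
      intro f hf
      induction hf using Submodule.span_induction with
      | mem x hx =>
        obtain ⟨k, rfl⟩ := hx
        exact h (a k) (Finset.mem_image_of_mem a (Finset.mem_univ k))
      | zero => rfl
      | add x y _ _ hx hy => rw [LinearMap.add_apply, hx, hy, add_zero]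
      | smul c x _ hx => rw [LinearMap.smul_apply, hx, smul_zero]
    funext i
    rw [hs] at h2
    exact h2 (φ i) (Submodule.subset_span ⟨i, rfl⟩)

/-- SUBSP -/
theorem finrank_subsp {K E ι : Type} [Field K] [Field E] [Algebra K E] [Fintype ι] (B : Submodule K E)
    [FiniteDimensional K B] (W : Submodule E (ι → E)) (U : Submodule K (ι → E)) (h1 : ∀ v ∈ U, ∀ i, v i ∈ B)
    (h2 : ∀ v ∈ U, v ∈ W) : FiniteDimensional K U ∧
    Module.finrank K U ≤ Module.finrank E W * Module.finrank K B := by
  classical
  obtain ⟨J, hJ, hinj⟩ := exists_coords W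
  let g : U →ₗ[K] (J → B) :=
    { toFun := fun v j => ⟨v.1 j, h1 v.1 v.2 j⟩
      map_add' := fun v w => rfl
      map_smul' := fun c v => rfl }
  have hg : Function.Injective g := by
    rw [← LinearMap.ker_eq_bot, LinearMap.ker_eq_bot']
    intro v hv
    apply Subtype.ext
    refine hinj v.1 (h2 v.1 v.2) fun j hj => ?_
    have h := congrFun hv ⟨j, hj⟩
    exact congrArg Subtype.val h
  refine ⟨FiniteDimensional.of_injective g hg, ?_⟩
  calc Module.finrank K U ≤ Module.finrank K (J → B) := LinearMap.finrank_le_finrank_of_injective hg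
    _ = J.card * Module.finrank K B := by
        rw [Module.finrank_pi_fintype, Finset.sum_const, Finset.card_univ, Fintype.card_coe, smul_eq_mul]
    _ ≤ Module.finrank E W * Module.finrank K B := Nat.mul_le_mul_right _ hJ

end Pool.Agent.H47.UG
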