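import Pool.Agent.H16.UG.KdimCore
import Pool.Agent.H30.UG.Strict
import Pool.Agent.H94.UG.Psi
import Pool.Agent.H77.UG.Hilb
import Pool.Agent.H77.UG.RetrF
import Pool.Agent.H29.UG.H0O
import Pool.Agent.H47.UG.Subsp

/-!
# KDIM: the dimension over `K` of the global sections in a finite dimensional `L`-space
-/

set_option autoImplicit false

open MvPolynomial

namespace Pool.Agent.H47.UG.FF

variable {K : Type} [Field K] [CharZero K] {n d : ℕ} {F : HP K n} (T : FF d F) (hF : Nice d F)

include hF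

/-- KDIM -/
theorem finrank_inter_le (_hn : 1 ≤ n) (hd : 2 ≤ d) (k m b : ℕ) (U : Submodule T.L T.BB)
    (hU : FiniteDimensional T.L U) (H : Submodule K T.BB) (hH : H ≤ H0 (T.EE k (-(b : ℤ)) m))
    (hHU : ∀ v ∈ H, v ∈ U) :
    FiniteDimensional K H ∧ Module.finrank K H ≤ Module.finrank T.L U * hyp n d ((d - 2) * m - b) := by
  refine Pool.Agent.H16.UG.finrank_inter_le_of T hF hd k m b (fun B _ W U h1 h2 => finrank_subsp B W U h1 h2) ?_
    (fun s => finrank_quot s F hF.irr.ne_zero hF.hom (by omega))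
    (fun q i v hv β hβ => (T.ψ_GG hF hd k _ m q i v hv β hβ).2.2.2)
    (fun hn s v hv => T.H0_OO hF hn s v hv)
    (fun q i v hv h => T.strict hF hd k _ m q i v hv h) U hU H hH hHU
  obtain ⟨r, hr, -⟩ := T.retract hF hd 0 0
  exact Function.LeftInverse.injective hr

end Pool.Agent.H47.UG.FF
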