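import Pool.Agent.H47.UG.Symb

/-!
# Lifting symbols to jet differentials
-/

set_option autoImplicit false

open MvPolynomial

namespace Pool.Agent.H47.UG

/-- Products of polynomials of order `≥ a` and `≥ b`. -/
theorem h84_hc_mul {σ R : Type} [CommRing R] (a b : ℕ) (P Q : MvPolynomial σ R)
    (hP : ∀ j < a, homogeneousComponent j P = 0) (hQ : ∀ j < b, homogeneousComponent j Q = 0) :
    (∀ j < a + b, homogeneousComponent j (P * Q) = 0) ∧
      homogeneousComponent (a + b) (P * Q) = homogeneousComponent a P * homogeneousComponent b Q := by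
  classical
  have hP' : ∀ x : σ →₀ ℕ, x.degree < a → coeff x P = 0 := by
    intro x hx
    have h := congrArg (coeff x) (hP _ hx)
    rwa [coeff_homogeneousComponent, if_pos rfl, coeff_zero] at h
  have hQ' : ∀ x : σ →₀ ℕ, x.degree < b → coeff x Q = 0 := by
    intro x hx
    have h := congrArg (coeff x) (hQ _ hx)
    rwa [coeff_homogeneousComponent, if_pos rfl, coeff_zero] at h
  constructor
  · intro j hj
    ext x
    rw [coeff_homogeneousComponent, coeff_zero]
    split_ifs with h
    · rw [coeff_mul]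
      refine Finset.sum_eq_zero fun y hy => ?_
      have h1 : y.1 + y.2 = x := Finset.HasAntidiagonal.mem_antidiagonal.1 hy
      have h2 : y.1.degree + y.2.degree = x.degree := by
        rw [← h1, map_add]
      by_cases h3 : y.1.degree < a
      · rw [hP' _ h3, zero_mul]
      · rw [hQ' y.2 (by omega), mul_zero]
    · rfl
  · ext x
    rw [coeff_homogeneousComponent]
    split_ifs with h
    · rw [coeff_mul, coeff_mul]
      refine Finset.sum_congr rfl fun y hy => ?_
      have h1 : y.1 + y.2 = x := Finset.HasAntidiagonal.mem_antidiagonal.1 hy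
      have h2 : y.1.degree + y.2.degree = x.degree := by
        rw [← h1, map_add]
      rw [coeff_homogeneousComponent, coeff_homogeneousComponent]
      by_cases h3 : y.1.degree < a
      · rw [hP' _ h3, if_neg (by omega), zero_mul, zero_mul]
      · by_cases h4 : y.1.degree = a
        · rw [if_pos h4, if_pos (by omega)]
        · rw [hQ' y.2 (by omega), if_neg h4, mul_zero, zero_mul]
    · rw [coeff_mul]
      symm
      refine Finset.sum_eq_zero fun y hy => ?_
      have h1 : y.1 + y.2 = x := Finset.HasAntidiagonal.mem_antidiagonal.1 hy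
      have h2 : y.1.degree + y.2.degree = x.degree := by
        rw [← h1, map_add]
      rw [coeff_homogeneousComponent, coeff_homogeneousComponent]
      by_cases h4 : y.1.degree = a
      · rw [if_neg (show ¬ y.2.degree = b by omega), mul_zero]
      · rw [if_neg h4, zero_mul]

/-- Products of polynomials with given linear parts and without constant term. -/
theorem h84_hc_prod {σ R : Type} [CommRing R] (q : ℕ) (P L : Fin q → MvPolynomial σ R)
    (hL : ∀ r, (L r).IsHomogeneous 1)
    (h : ∀ r, ∀ j < 2, homogeneousComponent j (P r - L r) = 0) :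
    (∀ j < q, homogeneousComponent j (∏ r, P r) = 0) ∧ homogeneousComponent q (∏ r, P r) = ∏ r, L r := by
  induction q with
  | zero =>
    refine ⟨fun j hj => absurd hj (Nat.not_lt_zero _), ?_⟩
    rw [Finset.univ_eq_empty, Finset.prod_empty, Finset.prod_empty]
    have : (1 : MvPolynomial σ R).IsHomogeneous 0 := isHomogeneous_one _ _
    rw [homogeneousComponent_of_mem (n := 0) this, if_pos rfl]
  | succ q ih =>
    obtain ⟨h1, h2⟩ := ih (fun r => P r.succ) (fun r => L r.succ) (fun r => hL _) (fun r => h _)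
    have h3 : ∀ j < 1, homogeneousComponent j (P 0) = 0 := by
      intro j hj
      have h4 := h 0 j (by omega)
      rw [map_sub, homogeneousComponent_of_mem (n := 1) (hL 0), if_neg (by omega), sub_zero] at h4
      exact h4
    have h5 : homogeneousComponent 1 (P 0) = L 0 := by
      have h4 := h 0 1 (by omega)
      rwa [map_sub, homogeneousComponent_of_mem (n := 1) (hL 0), if_pos rfl, sub_eq_zero] at h4
    obtain ⟨h6, h7⟩ := h84_hc_mul 1 q (P 0) (∏ r : Fin q, P r.succ) h3 h1
    rw [Fin.prod_univ_succ, Fin.prod_univ_succ]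
    refine ⟨fun j hj => h6 j (by omega), ?_⟩
    rw [← h2, ← h5, ← h7]
    exact congrArg (fun t => homogeneousComponent t (P 0 * ∏ r : Fin q, P r.succ)) (add_comm q 1)

namespace FF

variable {K : Type} [Field K] {n d : ℕ} {F : HP K n} (T : FF d F)

theorem h84_δ_hom (s : ℕ) (v : T.L) : (T.δ s v).IsHomogeneous 1 := by
  unfold FF.δ
  refine IsHomogeneous.sum _ _ _ fun l _ => ?_
  have := (isHomogeneous_C (ℕ × Fin n) (T.par l v)).mul (isHomogeneous_X T.L (s, l))
  simpa using this

/-- LIFT, from the statement on the iterates of `D`. -/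
theorem lift_GG_of (hD : ∀ (s : ℕ) (v : T.L) (j : ℕ), j < 2 → homogeneousComponent j
    ((T.D : T.BB → T.BB)^[s + 1] (C v) - T.δ s v) = 0)
    (k : ℕ) (e : ℤ) (m q : ℕ) (i : Fin (n + 2)) (v : T.BB) (hv : v ∈ T.GG k e m q i) :
    ∃ v' ∈ T.EE k e m i, (∀ j < q, homogeneousComponent j v' = 0) ∧ homogeneousComponent q v' = v := by
  unfold GG at hv
  refine Submodule.span_induction (p := fun v _ => ∃ v' ∈ T.EE k e m i,
    (∀ j < q, homogeneousComponent j v' = 0) ∧ homogeneousComponent q v' = v) ?_ ?_ ?_ ?_ hv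
  · rintro v ⟨a, ha, s, l, hs, rfl⟩
    obtain ⟨h1, h2⟩ := h84_hc_prod q (fun r => (T.D : T.BB → T.BB)^[(s r : ℕ) + 1] (C (T.x (l r) / T.x i)))
      (fun r => T.δ (s r) (T.x (l r) / T.x i)) (fun r => h84_δ_hom T _ _) (fun r j hj => hD _ _ j hj)
    refine ⟨C (T.x i ^ e * a) * ∏ r, (T.D : T.BB → T.BB)^[(s r : ℕ) + 1] (C (T.x (l r) / T.x i)),
      Submodule.subset_span ⟨a, ha, q, s, l, hs, rfl⟩, ?_, ?_⟩
    · intro j hj
      rw [homogeneousComponent_C_mul, h1 j hj, mul_zero]
    · rw [homogeneousComponent_C_mul, h2]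
  · exact ⟨0, Submodule.zero_mem _, fun j _ => map_zero _, map_zero _⟩
  · rintro v w _ _ ⟨v', h1, h2, h3⟩ ⟨w', h4, h5, h6⟩
    exact ⟨v' + w', Submodule.add_mem _ h1 h4, fun j hj => by rw [map_add, h2 j hj, h5 j hj, add_zero],
      by rw [map_add, h3, h6]⟩
  · rintro c v _ ⟨v', h1, h2, h3⟩
    refine ⟨c • v', Submodule.smul_mem _ _ h1, fun j hj => ?_, ?_⟩
    · have : c • v' = (C (algebraMap K T.L c) : T.BB) * v' := by
        rw [← smul_eq_C_mul, algebraMap_smul]
      rw [this, homogeneousComponent_C_mul, h2 j hj, mul_zero]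
    · have : c • v' = (C (algebraMap K T.L c) : T.BB) * v' := by
        rw [← smul_eq_C_mul, algebraMap_smul]
      rw [this, homogeneousComponent_C_mul, h3, ← smul_eq_C_mul, algebraMap_smul]

end FF

namespace FF

variable {K : Type} [Field K] [CharZero K] {n d : ℕ} {F : HP K n} (T : FF d F) (hF : Nice d F)

include hF

/-- LIFT -/
theorem lift_GG (k : ℕ) (e : ℤ) (m q : ℕ) (i : Fin (n + 2)) (v : T.BB) (hv : v ∈ T.GG k e m q i) :
    ∃ v' ∈ T.EE k e m i, (∀ j < q, homogeneousComponent j v' = 0) ∧ homogeneousComponent q v' = v :=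
  lift_GG_of T (fun s v j hj => (D_iter T hF s v).1 j hj) k e m q i v hv

end FF

end Pool.Agent.H47.UG
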