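import Pool.Agent.H47.UG.Stab

/-!
# The lattice of the jet differentials is symmetric: its two localisations on `x_i x_j ≠ 0` agree
-/

set_option autoImplicit false

open MvPolynomial

namespace Pool.Agent.H47.UG.FF

variable {K : Type} [Field K] {n d : ℕ} {F : HP K n} (T : FF d F)

section aux

private theorem se_C {k : ℕ} {i : Fin (n + 2)} {a : T.L} (e : ℤ) (ha : a ∈ T.A i) :
    (C (T.x i ^ e * a) : T.BB) ∈ T.EE k e 0 i := by
  unfold EE
  refine Submodule.subset_span ⟨a, ha, 0, Fin.elim0, Fin.elim0, ?_, ?_⟩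
  · simp
  · simp

private theorem se_C0 {k : ℕ} {i : Fin (n + 2)} {a : T.L} (ha : a ∈ T.A i) :
    (C a : T.BB) ∈ T.EE k 0 0 i := by
  have h := se_C T (k := k) 0 ha
  rwa [zpow_zero, one_mul] at h

private theorem se_D {k s : ℕ} (hs : s < k) (i l : Fin (n + 2)) :
    (T.D : T.BB → T.BB)^[s + 1] (C (T.x l / T.x i)) ∈ T.EE k 0 (s + 1) i := by
  unfold EE
  refine Submodule.subset_span ⟨1, one_mem _, 1, fun _ => ⟨s, hs⟩, fun _ => l, ?_, ?_⟩
  · simp
  · simp

private theorem se_mul {k m m' : ℕ} {e e' : ℤ} {i : Fin (n + 2)} {v w : T.BB} (hv : v ∈ T.EE k e m i)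
    (hw : w ∈ T.EE k e' m' i) : v * w ∈ T.EE k (e + e') (m + m') i := by
  unfold EE at hv
  induction hv using Submodule.span_induction with
  | mem v hv =>
    obtain ⟨a, ha, q, s, l, hs, rfl⟩ := hv
    unfold EE at hw
    induction hw using Submodule.span_induction with
    | mem w hw =>
      obtain ⟨b, hb, q', s', l', hs', rfl⟩ := hw
      unfold EE
      refine Submodule.subset_span ⟨a * b, mul_mem ha hb, q + q', Fin.append s s', Fin.append l l', ?_, ?_⟩
      · rw [Fin.sum_univ_add]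
        simp only [Fin.append_left, Fin.append_right]
        rw [hs, hs']
      · rw [Fin.prod_univ_add]
        simp only [Fin.append_left, Fin.append_right]
        rw [zpow_add₀ (T.x_ne i)]
        simp only [C_mul]
        ring
    | zero => rw [mul_zero]; exact zero_mem _
    | add v w _ _ h1 h2 => rw [mul_add]; exact add_mem h1 h2
    | smul c v _ h1 => rw [mul_smul_comm]; exact Submodule.smul_mem _ c h1
  | zero => rw [zero_mul]; exact zero_mem _
  | add v w _ _ h1 h2 => rw [add_mul]; exact add_mem h1 h2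
  | smul c v _ h1 => rw [smul_mul_assoc]; exact Submodule.smul_mem _ c h1

private theorem se_mono {k k' m : ℕ} (h : k ≤ k') (e : ℤ) (i : Fin (n + 2)) :
    T.EE k e m i ≤ T.EE k' e m i := by
  unfold EE
  refine Submodule.span_mono ?_
  rintro v ⟨a, ha, q, s, l, hs, rfl⟩
  exact ⟨a, ha, q, fun r => Fin.castLE h (s r), l, by simpa using hs, by simp⟩

private theorem se_DC {i : Fin (n + 2)} {a : T.L} (ha : a ∈ T.A i) : T.D (C a) ∈ T.EE 1 0 1 i := by
  unfold A at ha
  induction ha using Algebra.adjoin_induction with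
  | mem a ha =>
    obtain ⟨l, rfl⟩ := ha
    exact se_D T (Nat.zero_lt_one) i l
  | algebraMap c =>
    have h : (C (algebraMap K T.L c) : T.BB) = algebraMap K T.BB c := by
      rw [IsScalarTower.algebraMap_apply K T.L T.BB, algebraMap_eq]
    rw [h, Derivation.map_algebraMap]
    exact zero_mem _
  | add a b _ _ h1 h2 => rw [C_add, map_add]; exact add_mem h1 h2
  | mul a b ha hb h1 h2 =>
    rw [C_mul, Derivation.leibniz, smul_eq_mul, smul_eq_mul]
    have h3 := se_mul T (se_C0 T (k := 1) (show a ∈ T.A i from ha)) h2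
    have h4 := se_mul T (se_C0 T (k := 1) (show b ∈ T.A i from hb)) h1
    rw [zero_add, zero_add] at h3 h4
    exact add_mem h3 h4

private theorem se_prod {k : ℕ} {i : Fin (n + 2)} {ι : Type} (t : Finset ι) (f : ι → T.BB) (w : ι → ℕ)
    (h : ∀ r ∈ t, f r ∈ T.EE k 0 (w r) i) : ∏ r ∈ t, f r ∈ T.EE k 0 (∑ r ∈ t, w r) i := by
  classical
  induction t using Finset.induction_on with
  | empty =>
    rw [Finset.prod_empty, Finset.sum_empty, ← C_1]
    exact se_C0 T (one_mem _)
  | insert a s ha ih =>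
    rw [Finset.prod_insert ha, Finset.sum_insert ha]
    have h1 := se_mul T (h a (Finset.mem_insert_self _ _)) (ih fun r hr => h r (Finset.mem_insert_of_mem hr))
    rwa [zero_add] at h1

private theorem se_Dprod {k : ℕ} {i : Fin (n + 2)} {ι : Type} (t : Finset ι) (f : ι → T.BB) (w : ι → ℕ)
    (h : ∀ r ∈ t, f r ∈ T.EE k 0 (w r) i) (h' : ∀ r ∈ t, T.D (f r) ∈ T.EE (k + 1) 0 (w r + 1) i) :
    T.D (∏ r ∈ t, f r) ∈ T.EE (k + 1) 0 (∑ r ∈ t, w r + 1) i := by
  classical
  induction t using Finset.induction_on with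
  | empty =>
    rw [Finset.prod_empty, Derivation.map_one_eq_zero]
    exact zero_mem _
  | insert a s ha ih =>
    rw [Finset.prod_insert ha, Finset.sum_insert ha, Derivation.leibniz, smul_eq_mul, smul_eq_mul]
    have h1 := se_mul T (se_mono T (Nat.le_succ k) 0 i (h a (Finset.mem_insert_self _ _)))
      (ih (fun r hr => h r (Finset.mem_insert_of_mem hr)) fun r hr => h' r (Finset.mem_insert_of_mem hr))
    have h2 := se_mul T (se_mono T (Nat.le_succ k) 0 i (se_prod T s f w fun r hr => h r (Finset.mem_insert_of_mem hr)))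
      (h' a (Finset.mem_insert_self _ _))
    rw [zero_add] at h1 h2
    refine add_mem ?_ ?_
    · have e : w a + (∑ r ∈ s, w r + 1) = w a + ∑ r ∈ s, w r + 1 := by ring
      rwa [e] at h1
    · have e : ∑ r ∈ s, w r + (w a + 1) = w a + ∑ r ∈ s, w r + 1 := by ring
      rwa [e] at h2

/-- `D` raises order and weight by one. -/
private theorem se_DE {k m : ℕ} {i : Fin (n + 2)} {v : T.BB} (hv : v ∈ T.EE k 0 m i) :
    T.D v ∈ T.EE (k + 1) 0 (m + 1) i := by
  unfold EE at hv
  induction hv using Submodule.span_induction with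
  | mem v hv =>
    obtain ⟨a, ha, q, s, l, hs, rfl⟩ := hv
    rw [zpow_zero, one_mul, Derivation.leibniz, smul_eq_mul, smul_eq_mul]
    have h0 : ∀ r ∈ (Finset.univ : Finset (Fin q)),
        (T.D : T.BB → T.BB)^[(s r : ℕ) + 1] (C (T.x (l r) / T.x i)) ∈ T.EE k 0 ((s r : ℕ) + 1) i :=
      fun r _ => se_D T (s r).2 i (l r)
    have h1 : T.D (∏ r, (T.D : T.BB → T.BB)^[(s r : ℕ) + 1] (C (T.x (l r) / T.x i))) ∈
        T.EE (k + 1) 0 (∑ r, ((s r : ℕ) + 1) + 1) i := by
      refine se_Dprod T _ _ _ h0 fun r _ => ?_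
      rw [← Function.iterate_succ_apply' (T.D : T.BB → T.BB)]
      exact se_D T (Nat.succ_lt_succ (s r).2) i (l r)
    have h2 := se_prod T Finset.univ _ _ h0
    rw [hs] at h1 h2
    have h3 := se_mul T (se_C0 T (k := k + 1) ha) h1
    have h4 := se_mul T (se_mono T (Nat.le_succ k) 0 i h2) (se_mono T (Nat.succ_le_succ (Nat.zero_le k)) 0 i (se_DC T ha))
    rw [zero_add] at h3 h4
    rw [zero_add] at h3
    exact add_mem h3 h4
  | zero => rw [map_zero]; exact zero_mem _
  | add v w _ _ h1 h2 => rw [map_add]; exact add_mem h1 h2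
  | smul c v _ h1 => rw [Derivation.map_smul]; exact Submodule.smul_mem _ c h1

/-- Localisation of the jet differentials of order `k` and weight `m` at `t = x_j / x_i`. -/
private def Lo (i j : Fin (n + 2)) (k m : ℕ) (v : T.BB) : Prop :=
  ∃ N : ℕ, C ((T.x j / T.x i) ^ N) * v ∈ T.EE k 0 m i

private theorem se_t (i j : Fin (n + 2)) (N : ℕ) : (T.x j / T.x i) ^ N ∈ T.A i := by
  unfold A
  exact pow_mem (Algebra.subset_adjoin (Set.mem_range_self j)) N

private theorem se_up {i j : Fin (n + 2)} {k m N : ℕ} {v : T.BB} (h : C ((T.x j / T.x i) ^ N) * v ∈ T.EE k 0 m i)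
    (M : ℕ) : C ((T.x j / T.x i) ^ (M + N)) * v ∈ T.EE k 0 m i := by
  have h1 := se_mul T (se_C0 T (k := k) (se_t T i j M)) h
  rw [zero_add, zero_add] at h1
  rwa [pow_add, C_mul, mul_assoc]

private theorem lo_mul {i j : Fin (n + 2)} {k m m' : ℕ} {v w : T.BB} (hv : Lo T i j k m v) (hw : Lo T i j k m' w) :
    Lo T i j k (m + m') (v * w) := by
  obtain ⟨N, hN⟩ := hv
  obtain ⟨M, hM⟩ := hw
  refine ⟨N + M, ?_⟩
  have h := se_mul T hN hM
  rw [zero_add] at h
  rw [pow_add, C_mul]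
  convert h using 1
  ring

private theorem lo_mono {i j : Fin (n + 2)} {k k' m : ℕ} (h : k ≤ k') {v : T.BB} (hv : Lo T i j k m v) :
    Lo T i j k' m v := by
  obtain ⟨N, hN⟩ := hv
  exact ⟨N, se_mono T h 0 i hN⟩

private theorem lo_D {i j : Fin (n + 2)} {k m : ℕ} {v : T.BB} (hv : Lo T i j k m v) :
    Lo T i j (k + 1) (m + 1) (T.D v) := by
  obtain ⟨N, hN⟩ := hv
  refine ⟨N + 1, ?_⟩
  have h1 := se_DE T (se_up T hN 1)
  rw [Derivation.leibniz, smul_eq_mul, smul_eq_mul, C_pow, Derivation.leibniz_pow] at h1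
  have h2 := se_mul T (se_mono T (Nat.le_succ k) 0 i hN)
    (se_mono T (Nat.succ_le_succ (Nat.zero_le k)) 0 i (se_DC T (se_t T i j 1)))
  rw [zero_add, pow_one, C_pow] at h2
  have h3 := sub_mem h1 (Submodule.smul_of_tower_mem _ (1 + N) h2)
  convert h3 using 1
  rw [C_pow, add_comm 1 N]
  simp only [Nat.add_sub_cancel, nsmul_eq_mul, smul_eq_mul]
  ring

private theorem lo_iter (i j l : Fin (n + 2)) (s : ℕ) :
    Lo T i j s s ((T.D : T.BB → T.BB)^[s] (C (T.x l / T.x j))) := by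
  induction s with
  | zero =>
    refine ⟨1, ?_⟩
    rw [Function.iterate_zero_apply, ← C_mul]
    refine se_C0 T ?_
    have h : (T.x j / T.x i) ^ 1 * (T.x l / T.x j) = T.x l / T.x i := by
      have := T.x_ne i
      have := T.x_ne j
      field_simp
    rw [h]
    exact Algebra.subset_adjoin ⟨l, rfl⟩
  | succ s ih =>
    rw [Function.iterate_succ_apply']
    exact lo_D T ih

private theorem lo_prod {i j : Fin (n + 2)} {k : ℕ} {ι : Type} (t : Finset ι) (f : ι → T.BB) (w : ι → ℕ)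
    (h : ∀ r ∈ t, Lo T i j k (w r) (f r)) : Lo T i j k (∑ r ∈ t, w r) (∏ r ∈ t, f r) := by
  classical
  induction t using Finset.induction_on with
  | empty =>
    refine ⟨0, ?_⟩
    rw [Finset.prod_empty, Finset.sum_empty, pow_zero, mul_one]
    exact se_C0 T (one_mem _)
  | insert a s ha ih =>
    rw [Finset.prod_insert ha, Finset.sum_insert ha]
    exact lo_mul T (h a (Finset.mem_insert_self _ _)) (ih fun r hr => h r (Finset.mem_insert_of_mem hr))

/-- A power of `x_j / x_i` carries `A j` into `A i`. -/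
private theorem se_A (i j : Fin (n + 2)) {a : T.L} (ha : a ∈ T.A j) : ∃ N : ℕ, (T.x j / T.x i) ^ N * a ∈ T.A i := by
  have hi := T.x_ne i
  have hj := T.x_ne j
  unfold A at ha
  induction ha using Algebra.adjoin_induction with
  | mem a ha =>
    obtain ⟨l, rfl⟩ := ha
    refine ⟨1, ?_⟩
    have h : (T.x j / T.x i) ^ 1 * (T.x l / T.x j) = T.x l / T.x i := by
      field_simp
    rw [h]
    exact Algebra.subset_adjoin ⟨l, rfl⟩
  | algebraMap c => exact ⟨0, by rw [pow_zero, one_mul]; exact Subalgebra.algebraMap_mem _ c⟩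
  | add a b _ _ h1 h2 =>
    obtain ⟨N, hN⟩ := h1
    obtain ⟨M, hM⟩ := h2
    refine ⟨M + N, ?_⟩
    have e : (T.x j / T.x i) ^ (M + N) * (a + b) =
        (T.x j / T.x i) ^ M * ((T.x j / T.x i) ^ N * a) + (T.x j / T.x i) ^ N * ((T.x j / T.x i) ^ M * b) := by
      ring
    rw [e]
    exact add_mem (mul_mem (se_t T i j M) hN) (mul_mem (se_t T i j N) hM)
  | mul a b _ _ h1 h2 =>
    obtain ⟨N, hN⟩ := h1
    obtain ⟨M, hM⟩ := h2
    refine ⟨M + N, ?_⟩
    have e : (T.x j / T.x i) ^ (M + N) * (a * b) =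
        ((T.x j / T.x i) ^ N * a) * ((T.x j / T.x i) ^ M * b) := by
      ring
    rw [e]
    exact mul_mem hN hM

end aux

variable [CharZero K] (hF : Nice d F)

include hF

private theorem se_half {k m : ℕ} {e : ℤ} {i j : Fin (n + 2)} {v : T.BB} (hv : v ∈ T.EE k e m j) :
    ∃ N : ℕ, (T.x j / T.x i) ^ N • v ∈ T.EE k e m i := by
  have hi := T.x_ne i
  have hj := T.x_ne j
  have hst := stable_EE T hF k e m i
  unfold EE at hv
  induction hv using Submodule.span_induction with
  | mem v hv =>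
    obtain ⟨a, ha, q, s, l, hs, rfl⟩ := hv
    obtain ⟨N, hN⟩ := se_A T i j ha
    have h1 : Lo T i j k (∑ r, ((s r : ℕ) + 1)) (∏ r, (T.D : T.BB → T.BB)^[(s r : ℕ) + 1] (C (T.x (l r) / T.x j))) :=
      lo_prod T _ _ _ fun r _ => lo_mono T (s r).2 (lo_iter T i j (l r) ((s r : ℕ) + 1))
    rw [hs] at h1
    obtain ⟨M, hM⟩ := h1
    obtain ⟨P, hP⟩ : ∃ P : ℕ, (P : ℤ) = e.natAbs + e := ⟨(e.natAbs + e).toNat, by
      rw [Int.toNat_of_nonneg]; omega⟩
    refine ⟨e.natAbs + (M + N), ?_⟩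
    have h2 : (T.x j / T.x i) ^ P * ((T.x j / T.x i) ^ N * a) ∈ T.A i := mul_mem (se_t T i j P) hN
    have h3 := se_mul T (se_C T (k := k) e h2) hM
    rw [add_zero, zero_add] at h3
    convert h3 using 1
    rw [Algebra.smul_def, algebraMap_eq, ← mul_assoc, ← mul_assoc, ← C_mul, ← C_mul]
    congr 2
    have h4 : (T.x j / T.x i) ^ P = (T.x j / T.x i) ^ e.natAbs * (T.x j / T.x i) ^ e := by
      rw [← zpow_natCast, hP, zpow_add₀ (div_ne_zero hj hi), zpow_natCast]
    rw [h4, div_zpow, pow_add, pow_add]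
    have h5 : T.x i ^ e ≠ 0 := zpow_ne_zero _ hi
    field_simp
  | zero => exact ⟨0, by rw [smul_zero]; exact zero_mem _⟩
  | add v w _ _ h1 h2 =>
    obtain ⟨N, hN⟩ := h1
    obtain ⟨M, hM⟩ := h2
    refine ⟨M + N, ?_⟩
    rw [smul_add]
    refine add_mem ?_ ?_
    · rw [pow_add, mul_smul]
      exact hst _ (se_t T i j M) _ hN
    · rw [pow_add, mul_comm, mul_smul]
      exact hst _ (se_t T i j N) _ hM
  | smul c v _ h1 =>
    obtain ⟨N, hN⟩ := h1
    refine ⟨N, ?_⟩
    rw [smul_comm]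
    exact Submodule.smul_mem _ c hN

private theorem se_sub {k m : ℕ} {e : ℤ} (i j : Fin (n + 2)) : T.loc (T.EE k e m) j i ⊆ T.loc (T.EE k e m) i j := by
  rintro v ⟨N, hN⟩
  obtain ⟨M, hM⟩ := se_half T hF (i := i) hN
  refine ⟨M, ?_⟩
  have h := stable_EE T hF k e m i _ (se_t T i j N) _ hM
  rw [← mul_smul, ← mul_smul] at h
  have hi := T.x_ne i
  have hj := T.x_ne j
  have h1 : (T.x j / T.x i) ^ N * (T.x j / T.x i) ^ M * (T.x i / T.x j) ^ N = (T.x j / T.x i) ^ M := by
    have h2 : (T.x j / T.x i) ^ N * (T.x i / T.x j) ^ N = 1 := by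
      rw [← mul_pow, div_mul_div_comm, mul_comm (T.x j), div_self (mul_ne_zero hi hj), one_pow]
    rw [mul_right_comm, h2, one_mul]
  rwa [h1] at h

theorem sym_EE (k : ℕ) (e : ℤ) (m : ℕ) : T.Sym (T.EE k e m) := fun i j =>
  Set.Subset.antisymm (se_sub T hF j i) (se_sub T hF i j)

end Pool.Agent.H47.UG.FF
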