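import Pool.Agent.H30.UG.Strict
import Pool.Agent.H47.UG.Lift
import Pool.Agent.H47.UG.SymEE
import Pool.Agent.H95.UG.Filt2

/-!
# FILT: sections of `E_{k,m}(e)` from sections of the graded pieces
-/

set_option autoImplicit false

open MvPolynomial

namespace Pool.Agent.H47.UG.FF

variable {K : Type} [Field K] [CharZero K] {n d : ℕ} {F : HP K n} (T : FF d F) (hF : Nice d F)

include hF

/-- FILT -/
theorem filt (hd : 2 ≤ d) (k : ℕ) (e : ℤ) (m : ℕ) (g N : ℕ → ℕ)
    (hg : ∀ q ≤ m, ∃ S : Submodule K T.BB, S ≤ H0 (T.GG k e m q) ∧ FiniteDimensional K S ∧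
      Module.finrank K S = g q)
    (hN : ∀ q ≤ m, T.H1le (T.GG k e m q) (N q)) :
    ∃ H : Submodule K T.BB, H ≤ H0 (T.EE k e m) ∧ FiniteDimensional K H ∧
      ∑ q ∈ Finset.range (m + 1), g q ≤ Module.finrank K H + ∑ q ∈ Finset.range (m + 1), N q :=
  Pool.Agent.H95.UG.filt_of' T k e m (fun q i v hv => T.lift_GG hF k e m q i v hv)
    (fun q i v hv h => T.strict hF hd k e m q i v hv h) (T.stable_EE hF k e m) (T.sym_EE hF k e m)
    (fun s v => T.D_iter hF s v) g N hg hN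

end Pool.Agent.H47.UG.FF
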