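import Pool.Agent.H33.UG.A1
import Pool.Agent.H38.UG.Patch
import Pool.Agent.H85.UG.Det

/-!
# The sections `ρ_c`: `GP ≤ GG` (row UA-GPLE)
-/

set_option autoImplicit false

open MvPolynomial

namespace Pool.Agent.H47.UG.FF

variable {K : Type} [Field K] {n d : ℕ} {F : HP K n} (T : FF d F)

/-- `GG` is a family of modules over the rings `A i` -/
theorem gple_stable (k : ℕ) (e : ℤ) (m q : ℕ) (i : Fin (n + 2)) (a : T.L) (ha : a ∈ T.A i) (v : T.BB)
    (hv : v ∈ T.GG k e m q i) : a • v ∈ T.GG k e m q i := by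
  refine Submodule.span_induction (p := fun v _ => a • v ∈ T.GG k e m q i) ?_ ?_ ?_ ?_ hv
  · rintro _ ⟨b, hb, s, l, hs, rfl⟩
    refine Submodule.subset_span ⟨a * b, mul_mem ha hb, s, l, hs, ?_⟩
    rw [smul_eq_C_mul, ← mul_assoc, ← C_mul]
    congr 2
    ring
  · rw [smul_zero]
    exact zero_mem _
  · intro v w _ _ h1 h2
    rw [smul_add]
    exact add_mem h1 h2
  · intro c v _ h1
    rw [smul_comm]
    exact Submodule.smul_mem _ _ h1

/-- products of symbols -/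
theorem gple_mul {k : ℕ} {e e' : ℤ} {m m' q q' : ℕ} {i : Fin (n + 2)} {v w : T.BB}
    (hv : v ∈ T.GG k e m q i) (hw : w ∈ T.GG k e' m' q' i) :
    v * w ∈ T.GG k (e + e') (m + m') (q + q') i := by
  refine Submodule.span_induction (p := fun v _ => v * w ∈ T.GG k (e + e') (m + m') (q + q') i)
    ?_ ?_ ?_ ?_ hv
  · rintro _ ⟨a, ha, s, l, hs, rfl⟩
    refine Submodule.span_induction (p := fun w _ => (C (T.x i ^ e * a) *
      ∏ r, T.δ (s r) (T.x (l r) / T.x i)) * w ∈ T.GG k (e + e') (m + m') (q + q') i) ?_ ?_ ?_ ?_ hw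
    · rintro _ ⟨a', ha', s', l', hs', rfl⟩
      refine Submodule.subset_span ⟨a * a', mul_mem ha ha', Fin.append s s', Fin.append l l', ?_, ?_⟩
      · rw [Fin.sum_univ_add]
        simp only [Fin.append_left, Fin.append_right]
        rw [hs, hs']
      · rw [Fin.prod_univ_add]
        simp only [Fin.append_left, Fin.append_right]
        rw [zpow_add₀ (T.x_ne i), mul_mul_mul_comm, ← C_mul]
        congr 2
        ring
    · rw [mul_zero]
      exact zero_mem _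
    · intro v w _ _ h1 h2
      rw [mul_add]
      exact add_mem h1 h2
    · intro c v _ h1
      rw [mul_smul_comm]
      exact Submodule.smul_mem _ _ h1
  · rw [zero_mul]
    exact zero_mem _
  · intro v w _ _ h1 h2
    rw [add_mul]
    exact add_mem h1 h2
  · intro c v _ h1
    rw [smul_mul_assoc]
    exact Submodule.smul_mem _ _ h1

theorem gple_one (k : ℕ) (i : Fin (n + 2)) : (1 : T.BB) ∈ T.GG k 0 0 0 i :=
  Submodule.subset_span ⟨1, one_mem _, Fin.elim0, Fin.elim0, by simp, by simp⟩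

/-- the determinants of the chart `(i,j)` -/
theorem gple_det {k : ℕ} (e : ℤ) (i : Fin (n + 2)) (j : Fin (n + 1)) (c : Fin n → Fin k) :
    C (T.x i ^ e) * Matrix.det (Matrix.of fun l r : Fin n => T.δ (c r) (T.y i j l)) ∈
      T.GG k e (∑ t, ((c t : ℕ) + 1)) n i := by
  rw [Matrix.det_apply, Finset.mul_sum]
  refine Submodule.sum_mem _ fun g _ => ?_
  rw [mul_smul_comm]
  have h1 : C (T.x i ^ e) * ∏ r, (Matrix.of fun l r : Fin n => T.δ (c r) (T.y i j l)) (g r) r ∈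
      T.GG k e (∑ t, ((c t : ℕ) + 1)) n i := by
    refine Submodule.subset_span ⟨1, one_mem _, c, fun r => i.succAbove (j.succAbove (g r)), rfl, ?_⟩
    rw [mul_one]
    rfl
  rcases Int.units_eq_one_or (Equiv.Perm.sign g) with h | h
  · rw [h, one_smul]
    exact h1
  · rw [h, Units.neg_smul, one_smul]
    exact neg_mem h1

/-- `ρ_c` is a section of `Gr(-(d-n-2))` -/
theorem gple_rho {k : ℕ} (c : Fin n → Fin k) (i : Fin (n + 2))
    (patch : ∀ (M : Submodule K T.BB), (∀ a ∈ T.A i, ∀ v ∈ M, a • v ∈ M) → ∀ v : T.BB,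
      (∀ j, j ≠ i → ∃ N : ℕ, T.u i j ^ N • v ∈ M) → v ∈ M)
    (det_y : ∀ j : Fin (n + 1), ∃ ε : ℤˣ,
      Matrix.det (Matrix.of fun l r : Fin n => T.δ (c r) (T.y i j l)) =
        ((ε : ℤ) : T.BB) * C (T.x i ^ ((d : ℤ) - n - 2) * T.u i (i.succAbove j)) * T.ρ c) :
    T.ρ c ∈ T.GG k (-((d : ℤ) - n - 2)) (∑ t, ((c t : ℕ) + 1)) n i := by
  refine patch _ (fun a ha v hv => gple_stable T _ _ _ _ i a ha v hv) _ fun j' hj' => ⟨1, ?_⟩
  obtain ⟨j, rfl⟩ := Fin.exists_succAbove_eq hj'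
  obtain ⟨ε, h1⟩ := det_y j
  have h2 := gple_det T (-((d : ℤ) - n - 2)) i j c
  rw [h1] at h2
  have h3 : C (T.x i ^ (-((d : ℤ) - n - 2))) *
      (((ε : ℤ) : T.BB) * C (T.x i ^ ((d : ℤ) - n - 2) * T.u i (i.succAbove j)) * T.ρ c) =
      ((ε : ℤ) : T.BB) * (C (T.u i (i.succAbove j)) * T.ρ c) := by
    have h4 : T.x i ^ (-((d : ℤ) - n - 2)) * (T.x i ^ ((d : ℤ) - n - 2) * T.u i (i.succAbove j)) =
        T.u i (i.succAbove j) := by
      rw [← mul_assoc, ← zpow_add₀ (T.x_ne i), neg_add_cancel, zpow_zero, one_mul]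
    calc C (T.x i ^ (-((d : ℤ) - n - 2))) *
        (((ε : ℤ) : T.BB) * C (T.x i ^ ((d : ℤ) - n - 2) * T.u i (i.succAbove j)) * T.ρ c) =
        ((ε : ℤ) : T.BB) * (C (T.x i ^ (-((d : ℤ) - n - 2))) *
          C (T.x i ^ ((d : ℤ) - n - 2) * T.u i (i.succAbove j)) * T.ρ c) := by ring
      _ = ((ε : ℤ) : T.BB) * (C (T.u i (i.succAbove j)) * T.ρ c) := by rw [← C_mul, h4]
  rw [pow_one, smul_eq_C_mul]
  rw [h3] at h2
  rcases Int.units_eq_one_or ε with h | h
  · rw [h] at h2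
    simpa using h2
  · rw [h] at h2
    have h5 := neg_mem h2
    simpa using h5

theorem gple_prod {k p : ℕ} (c : Fin p → Fin n → Fin k) (i : Fin (n + 2))
    (h : ∀ r, T.ρ (c r) ∈ T.GG k (-((d : ℤ) - n - 2)) (∑ t, ((c r t : ℕ) + 1)) n i) :
    (∏ r, T.ρ (c r)) ∈ T.GG k (-(p * ((d : ℤ) - n - 2))) (∑ r, ∑ t, ((c r t : ℕ) + 1)) (p * n) i := by
  induction p with
  | zero => simpa using gple_one T k i
  | succ p ih =>
    rw [Fin.prod_univ_succ, Fin.sum_univ_succ]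
    have h1 := gple_mul T (h 0) (ih (fun r => c r.succ) fun r => h r.succ)
    have e1 : -((d : ℤ) - n - 2) + -(p * ((d : ℤ) - n - 2)) = -((p + 1 : ℕ) * ((d : ℤ) - n - 2)) := by
      push_cast
      ring
    have e2 : n + p * n = (p + 1) * n := by ring
    rw [e1, e2] at h1
    exact h1

/-- `GP ≤ GG` from the patching lemma and the determinants of the charts -/
theorem GP_le_of (k p : ℕ) (e : ℤ) (m q : ℕ) (i : Fin (n + 2))
    (patch : ∀ (M : Submodule K T.BB), (∀ a ∈ T.A i, ∀ v ∈ M, a • v ∈ M) → ∀ v : T.BB,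
      (∀ j, j ≠ i → ∃ N : ℕ, T.u i j ^ N • v ∈ M) → v ∈ M)
    (det_y : ∀ (j : Fin (n + 1)) (c : Fin n → Fin k), ∃ ε : ℤˣ,
      Matrix.det (Matrix.of fun l r : Fin n => T.δ (c r) (T.y i j l)) =
        ((ε : ℤ) : T.BB) * C (T.x i ^ ((d : ℤ) - n - 2) * T.u i (i.succAbove j)) * T.ρ c) :
    T.GP k p e m q i ≤ T.GG k e m q i := by
  refine Submodule.span_le.2 ?_
  rintro _ ⟨c, m', q', g, hg, hq, hm, rfl⟩
  have h1 := gple_prod T c i fun r => gple_rho T (c r) i patch fun j => det_y j (c r)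
  have h2 := gple_mul T h1 hg
  have e1 : -(p * ((d : ℤ) - n - 2)) + (e + p * ((d : ℤ) - n - 2)) = e := by ring
  rw [e1, add_comm _ m', hm, add_comm _ q', hq] at h2
  exact h2

/-- `GP ≤ GG` -/
theorem GP_le [CharZero K] (hF : Nice d F) (hd : 2 ≤ d) (k p : ℕ) (e : ℤ) (m q : ℕ) (i : Fin (n + 2)) :
    T.GP k p e m q i ≤ T.GG k e m q i :=
  GP_le_of T k p e m q i
    (fun M hM v h => patch_of T i (T.u_mem hF i) (T.smoothA hF hd i) M hM v h)
    fun j c => Pool.Agent.H85.UG.FFDet.det_y_of T (T.euler hF) (T.chain hF)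
      (T.fd_ne hF hd (Fin.last (n + 1))) hd i j c

end Pool.Agent.H47.UG.FF
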