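import Pool.Agent.H99.UGA.SecGP
import Pool.Agent.H47.UG.GPle

/-!
# SEC: sections of the graded pieces (row A-SEC)
-/

set_option autoImplicit false

open MvPolynomial

namespace Pool.Agent.H47.UG.FF

variable {K : Type} [Field K] [CharZero K] {n d : ℕ} {F : HP K n} (T : FF d F) (hF : Nice d F)

include hF

/-- SEC -/
theorem sections (hd : 2 ≤ d) (k p m q s : ℕ) (e : ℤ) (h : (s : ℤ) + 2 * q ≤ e + p * ((d : ℤ) - n - 2)) :
    ∃ S : Submodule K T.BB, S ≤ H0 (T.GG k e m q) ∧ FiniteDimensional K S ∧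
      Module.finrank K S = Module.finrank K (IP K n k p m q) * hyp n d s :=
  T.sections_gp hF hd k p m q s e h fun i => T.GP_le hF hd k p e m q i

end Pool.Agent.H47.UG.FF
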