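import Pool.Agent.H47.UG.Ch

/-!
# Sections of `O(s)` on the hyperplane section `X_0 = 0`
-/

set_option autoImplicit false

open MvPolynomial

namespace Pool.Agent.H47.UG

section gen

variable {K σ : Type} [Field K]

private theorem comp_mul {A : MvPolynomial σ K} {a : ℕ} (hA : A.IsHomogeneous a) (B : MvPolynomial σ K)
    (k : ℕ) : homogeneousComponent k (A * B) = if a ≤ k then A * homogeneousComponent (k - a) B else 0 := by
  classical
  have h : ∀ j, homogeneousComponent k (A * homogeneousComponent j B) =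
      if k = a + j then A * homogeneousComponent j B else 0 := by
    intro j
    exact homogeneousComponent_of_mem (hA.mul (homogeneousComponent_isHomogeneous j B))
  conv_lhs => rw [← sum_homogeneousComponent B, Finset.mul_sum, map_sum]
  simp_rw [h]
  split_ifs with hk
  · rw [Finset.sum_eq_single (k - a)]
    · rw [if_pos (by omega)]
    · intro j _ hj
      rw [if_neg (by omega)]
    · intro hj
      rw [Finset.mem_range, not_lt] at hj
      rw [if_pos (by omega), homogeneousComponent_eq_zero _ _ (by omega), mul_zero]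
  · refine Finset.sum_eq_zero fun j _ => ?_
    rw [if_neg (by omega)]

private theorem comp_self {A : MvPolynomial σ K} {a : ℕ} (hA : A.IsHomogeneous a) :
    homogeneousComponent a A = A := by
  rw [homogeneousComponent_of_mem hA, if_pos rfl]

end gen

section bar

variable {K : Type} [Field K] {n : ℕ}

/-- The restriction to `X_0 = 0`. -/
private noncomputable def br : MvPolynomial (Fin (n + 2)) K →ₐ[K] MvPolynomial (Fin (n + 1)) K :=
  aeval (Fin.cons 0 X : Fin (n + 2) → MvPolynomial (Fin (n + 1)) K)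

private theorem br_ren (P : MvPolynomial (Fin (n + 1)) K) : br (rename Fin.succ P) = P := by
  unfold br
  rw [aeval_rename]
  have h : ((Fin.cons 0 X : Fin (n + 2) → MvPolynomial (Fin (n + 1)) K) ∘ Fin.succ) = X := by
    funext i
    rw [Function.comp_apply, Fin.cons_succ]
  rw [h, aeval_X_left, AlgHom.id_apply]

private theorem br_X0 : br (X 0 : MvPolynomial (Fin (n + 2)) K) = 0 := by
  unfold br
  rw [aeval_X, Fin.cons_zero]

private theorem br_Xs (i : Fin (n + 1)) : br (X i.succ : MvPolynomial (Fin (n + 2)) K) = X i := by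
  unfold br
  rw [aeval_X, Fin.cons_succ]

private theorem br_hom {P : MvPolynomial (Fin (n + 2)) K} {s : ℕ} (hP : P.IsHomogeneous s) :
    (br P).IsHomogeneous s := by
  have h := hP.aeval (Fin.cons 0 X : Fin (n + 2) → MvPolynomial (Fin (n + 1)) K) (n := 1) (by
    intro i
    refine Fin.cases ?_ (fun j => ?_) i
    · rw [Fin.cons_zero]
      exact isHomogeneous_zero _ _ _
    · rw [Fin.cons_succ]
      exact isHomogeneous_X _ _)
  rwa [one_mul] at h

private theorem dvd_sub_ren (P : MvPolynomial (Fin (n + 2)) K) : X 0 ∣ P - rename Fin.succ (br P) := by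
  induction P using MvPolynomial.induction_on with
  | C a =>
    unfold br
    rw [aeval_C, algebraMap_eq, rename_C, sub_self]
    exact dvd_zero _
  | add p q hp hq =>
    rw [map_add, map_add]
    have : p + q - (rename Fin.succ (br p) + rename Fin.succ (br q)) =
      (p - rename Fin.succ (br p)) + (q - rename Fin.succ (br q)) := by ring
    rw [this]
    exact dvd_add hp hq
  | mul_X p i hp =>
    rw [map_mul, map_mul]
    refine Fin.cases ?_ (fun j => ?_) i
    · rw [br_X0, map_zero, mul_zero, sub_zero]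
      exact dvd_mul_left _ _
    · rw [br_Xs, rename_X, ← sub_mul]
      exact hp.mul_right _

private theorem coeff_br (P : MvPolynomial (Fin (n + 2)) K) (j : Fin (n + 1)) (e : ℕ) :
    coeff (Finsupp.single j e) (br P) = coeff (Finsupp.single j.succ e) P := by
  classical
  obtain ⟨E, hE⟩ := dvd_sub_ren P
  have h1 : coeff (Finsupp.single j.succ e) (P - rename Fin.succ (br P)) = 0 := by
    rw [hE, mul_comm, coeff_mul_X', if_neg]
    intro h
    rw [Finsupp.mem_support_iff] at h
    apply h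
    rw [Finsupp.single_apply, if_neg]
    exact Fin.succ_ne_zero j
  rw [coeff_sub, sub_eq_zero] at h1
  rw [h1, ← Finsupp.mapDomain_single (f := Fin.succ), coeff_rename_mapDomain _ (Fin.succ_injective _)]

end bar

section reg

variable {K : Type} [Field K]

private theorem monic_fse {N d : ℕ} {G : MvPolynomial (Fin (N + 1)) K} (hG : G.IsHomogeneous d)
    (hc : coeff (Finsupp.single 0 d) G ≠ 0) :
    (Polynomial.C (C (coeff (Finsupp.single 0 d) G)⁻¹) * finSuccEquiv K N G).Monic := by
  have h0 : ∀ (m : Fin N →₀ ℕ) (i : ℕ), m.degree + i ≠ d →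
      coeff m (Polynomial.coeff (finSuccEquiv K N G) i) = 0 := by
    intro m i hi
    rw [finSuccEquiv_coeff_coeff]
    refine hG.coeff_eq_zero ?_
    have : (Finsupp.cons i m).degree = i + m.degree := by
      rw [Finsupp.degree_eq_sum, Finsupp.degree_eq_sum, Fin.sum_univ_succ, Finsupp.cons_zero]
      simp only [Finsupp.cons_succ]
    rw [this]
    omega
  have h1 : (finSuccEquiv K N G).natDegree ≤ d := by
    refine Polynomial.natDegree_le_iff_coeff_eq_zero.mpr fun i hi => ?_
    ext m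
    rw [h0 m i (by omega), coeff_zero]
  have h2 : (finSuccEquiv K N G).coeff d = C (coeff (Finsupp.single 0 d) G) := by
    ext m
    by_cases hm : m = 0
    · subst hm
      rw [finSuccEquiv_coeff_coeff, coeff_zero_C]
      congr 1
      ext i
      refine Fin.cases ?_ (fun j => ?_) i
      · rw [Finsupp.cons_zero, Finsupp.single_eq_same]
      · rw [Finsupp.cons_succ, Finsupp.zero_apply, Finsupp.single_apply, if_neg (Fin.succ_ne_zero j).symm]
    · rw [h0 m d, coeff_C, if_neg (Ne.symm hm)]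
      have : m.degree ≠ 0 := by
        rw [Ne, Finsupp.degree_eq_zero_iff]
        exact hm
      omega
  refine Polynomial.monic_of_natDegree_le_of_coeff_eq_one d ?_ ?_
  · exact (Polynomial.natDegree_C_mul_le _ _).trans h1
  · rw [Polynomial.coeff_C_mul, h2, ← C_mul, inv_mul_cancel₀ hc, C_1]

private theorem X_pow_dvd {N : ℕ} {i j : Fin N} (hij : i ≠ j) (a b : ℕ) {α β : MvPolynomial (Fin N) K}
    (h : X j ^ b * α = X i ^ a * β) : X i ^ a ∣ α := by
  have hp : Prime (X i : MvPolynomial (Fin N) K) := X_prime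
  refine hp.pow_dvd_of_dvd_mul_left a (b := α) (a := X j ^ b) ?_ ⟨β, h⟩
  intro h1
  have h2 := hp.dvd_of_dvd_pow h1
  rw [X_dvd_X] at h2
  exact hij h2

/-- `(X_{i+1}^a, X_{j+1}^b)` is regular modulo `G`. -/
private theorem regular {N d : ℕ} {G : MvPolynomial (Fin (N + 1)) K} (hG : G.IsHomogeneous d)
    (hc : coeff (Finsupp.single 0 d) G ≠ 0) {i j : Fin N} (hij : i ≠ j) (a b : ℕ)
    {P Q : MvPolynomial (Fin (N + 1)) K} (h : G ∣ X j.succ ^ b * P - X i.succ ^ a * Q) :
    ∃ R, G ∣ P - X i.succ ^ a * R := by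
  set u : MvPolynomial (Fin N) K := C (coeff (Finsupp.single 0 d) G)⁻¹ with hu
  set g := Polynomial.C u * finSuccEquiv K N G with hg
  have hm : g.Monic := monic_fse hG hc
  have hgG : ∀ A : MvPolynomial (Fin (N + 1)) K, G ∣ A ↔ g ∣ finSuccEquiv K N A := by
    intro A
    have hun : IsUnit (Polynomial.C u) := by
      refine (Polynomial.isUnit_C).mpr ?_
      exact (isUnit_iff_ne_zero.mpr (inv_ne_zero hc)).map C
    rw [hg, hun.mul_left_dvd]
    constructor
    · rintro ⟨B, rfl⟩
      rw [map_mul]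
      exact dvd_mul_right _ _
    · rintro ⟨B, hB⟩
      refine ⟨(finSuccEquiv K N).symm B, (finSuccEquiv K N).injective ?_⟩
      rw [map_mul, AlgEquiv.apply_symm_apply, hB]
  set p := finSuccEquiv K N P
  set q := finSuccEquiv K N Q
  have h1 : g ∣ Polynomial.C (X j ^ b) * p - Polynomial.C (X i ^ a) * q := by
    have h2 := (hgG _).mp h
    rw [map_sub, map_mul, map_mul, map_pow, map_pow, finSuccEquiv_X_succ, finSuccEquiv_X_succ,
      ← Polynomial.C_pow, ← Polynomial.C_pow] at h2
    exact h2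
  have h3 : Polynomial.C (X j ^ b) * (p %ₘ g) = Polynomial.C (X i ^ a) * (q %ₘ g) := by
    have h4 : (Polynomial.C (X j ^ b) * p - Polynomial.C (X i ^ a) * q) %ₘ g = 0 :=
      (Polynomial.modByMonic_eq_zero_iff_dvd hm).mpr h1
    rw [Polynomial.sub_modByMonic, ← Polynomial.smul_eq_C_mul, ← Polynomial.smul_eq_C_mul,
      Polynomial.smul_modByMonic, Polynomial.smul_modByMonic, sub_eq_zero] at h4
    rw [← Polynomial.smul_eq_C_mul, ← Polynomial.smul_eq_C_mul]
    exact h4
  have h5 : Polynomial.C (X i ^ a) ∣ p %ₘ g := by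
    rw [Polynomial.C_dvd_iff_dvd_coeff]
    intro k
    have h6 := congrArg (fun f => Polynomial.coeff f k) h3
    simp only [Polynomial.coeff_C_mul] at h6
    exact X_pow_dvd hij a b h6
  obtain ⟨r, hr⟩ := h5
  refine ⟨(finSuccEquiv K N).symm r, (hgG _).mpr ⟨p /ₘ g, ?_⟩⟩
  rw [map_sub, map_mul, map_pow, finSuccEquiv_X_succ, AlgEquiv.apply_symm_apply, ← Polynomial.C_pow, ← hr]
  have h7 := Polynomial.modByMonic_add_div p g
  have h8 : p = g * (p /ₘ g) + p %ₘ g := by
    rw [_root_.add_comm]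
    exact h7.symm
  exact sub_eq_iff_eq_add.mpr h8

end reg

section scale

private theorem scale {K L σ : Type} [Field K] [Field L] [Algebra K L] [Fintype σ] (x : σ → L) {c : L}
    (hc : c ≠ 0) {P : MvPolynomial σ K} {s : ℕ} (hP : P.IsHomogeneous s) :
    aeval x P = c ^ s * aeval (fun l => x l / c) P := by
  rw [aeval_def, aeval_def, eval₂_eq', eval₂_eq', Finset.mul_sum]
  refine Finset.sum_congr rfl fun m hm => ?_
  have h1 : ∑ l, m l = s := by
    rw [← Finsupp.degree_eq_sum, Finsupp.degree_eq_weight_one]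
    exact hP (mem_support_iff.mp hm)
  have h2 : c ^ s = ∏ l, c ^ m l := by
    rw [← h1, Finset.prod_pow_eq_pow_sum]
  rw [mul_left_comm, h2, ← Finset.prod_mul_distrib]
  congr 1
  refine Finset.prod_congr rfl fun l _ => ?_
  rw [div_pow, mul_div_cancel₀]
  exact pow_ne_zero _ hc

end scale

namespace FF

variable {K : Type} [Field K] {n d : ℕ} {F : HP K n} (T : FF d F)

private theorem mem_A' (i : Fin (n + 2)) (v : T.L) : v ∈ T.A i ↔ ∃ (s : ℕ) (P : HP K n), P.IsHomogeneous s ∧
    v = aeval T.x P / T.x i ^ s := by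
  have hi := T.x_ne i
  constructor
  · intro hv
    unfold FF.A at hv
    induction hv using Algebra.adjoin_induction with
    | mem y hy =>
      obtain ⟨l, rfl⟩ := hy
      exact ⟨1, X l, isHomogeneous_X _ _, by rw [aeval_X, pow_one]⟩
    | algebraMap r => exact ⟨0, C r, isHomogeneous_C _ _, by rw [aeval_C, pow_zero, div_one]⟩
    | add y z _ _ hy hz =>
      obtain ⟨s, P, hP, rfl⟩ := hy
      obtain ⟨t, Q, hQ, rfl⟩ := hz
      refine ⟨s + t, P * X i ^ t + X i ^ s * Q, ?_, ?_⟩
      · refine (hP.mul ((isHomogeneous_X_pow i t))).add ?_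
        exact (isHomogeneous_X_pow i s).mul hQ
      · rw [map_add, map_mul, map_mul, map_pow, map_pow, aeval_X, pow_add]
        field_simp
    | mul y z _ _ hy hz =>
      obtain ⟨s, P, hP, rfl⟩ := hy
      obtain ⟨t, Q, hQ, rfl⟩ := hz
      refine ⟨s + t, P * Q, hP.mul hQ, ?_⟩
      rw [map_mul, pow_add, div_mul_div_comm]
  · rintro ⟨s, P, hP, rfl⟩
    rw [scale T.x hi hP, mul_div_assoc, mul_comm, div_mul_cancel₀ _ (pow_ne_zero _ hi)]
    unfold FF.A
    rw [Algebra.adjoin_range_eq_range_aeval]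
    exact ⟨P, rfl⟩

private theorem mem_OO' (e : ℤ) (i : Fin (n + 2)) (v : T.L) : v ∈ T.OO e i ↔
    ∃ (s : ℕ) (P : HP K n), P.IsHomogeneous s ∧ v = T.x i ^ (e - s) * aeval T.x P := by
  have hi := T.x_ne i
  constructor
  · intro hv
    unfold FF.OO at hv
    induction hv using Submodule.span_induction with
    | mem y hy =>
      obtain ⟨a, ha, rfl⟩ := hy
      obtain ⟨s, P, hP, rfl⟩ := (T.mem_A' i a).mp ha
      refine ⟨s, P, hP, ?_⟩
      rw [zpow_sub₀ hi, zpow_natCast]
      ring
    | zero => exact ⟨0, 0, isHomogeneous_zero _ _ _, by rw [map_zero, mul_zero]⟩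
    | add y z _ _ hy hz =>
      obtain ⟨s, P, hP, rfl⟩ := hy
      obtain ⟨t, Q, hQ, rfl⟩ := hz
      refine ⟨s + t, P * X i ^ t + X i ^ s * Q, ?_, ?_⟩
      · refine (hP.mul ((isHomogeneous_X_pow i t))).add ?_
        exact (isHomogeneous_X_pow i s).mul hQ
      · rw [map_add, map_mul, map_mul, map_pow, map_pow, aeval_X, zpow_sub₀ hi, zpow_sub₀ hi,
          zpow_sub₀ hi, Nat.cast_add, zpow_add₀ hi, zpow_natCast, zpow_natCast]
        field_simp
    | smul c y _ hy =>
      obtain ⟨s, P, hP, rfl⟩ := hy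
      refine ⟨s, C c * P, ?_, ?_⟩
      · have h := (isHomogeneous_C (Fin (n + 2)) c).mul hP
        rwa [zero_add] at h
      · rw [map_mul, aeval_C, Algebra.smul_def]
        ring
  · rintro ⟨s, P, hP, rfl⟩
    refine Submodule.subset_span ⟨_, (T.mem_A' i _).mpr ⟨s, P, hP, rfl⟩, ?_⟩
    rw [zpow_sub₀ hi, zpow_natCast]
    ring

private theorem F_dvd {t : ℕ} {A B : HP K n} (hA : A.IsHomogeneous t) (hB : B.IsHomogeneous t)
    (h : aeval T.x A = aeval T.x B) : F ∣ A - B := by
  rw [← T.ker t _ (hA.sub hB), map_sub, h, sub_self]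

variable (hF : Nice d F)

include hF

private theorem aeval_F : aeval T.x F = 0 := (T.ker d F hF.hom).mpr dvd_rfl

private theorem fin_lem {N : ℕ} {D : HP K n} (hD : D.IsHomogeneous (N + 1)) (h : br F ∣ br D) :
    ∃ E : HP K n, E.IsHomogeneous N ∧ aeval T.x D = aeval T.x E := by
  obtain ⟨H, hH⟩ := h
  have h1 : X 0 ∣ D - F * rename Fin.succ H := by
    have h2 := dvd_sub_ren (D - F * rename Fin.succ H)
    rw [map_sub br, map_mul br, br_ren, hH, sub_self, map_zero, sub_zero] at h2
    exact h2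
  obtain ⟨E, hE⟩ := h1
  refine ⟨homogeneousComponent N E, homogeneousComponent_isHomogeneous _ _, ?_⟩
  have h3 := congrArg (homogeneousComponent (N + 1)) hE
  rw [map_sub, comp_self hD, comp_mul hF.hom, comp_mul (isHomogeneous_X K (0 : Fin (n + 2))),
    if_pos (show 1 ≤ N + 1 by omega), Nat.add_sub_cancel] at h3
  have h4 := congrArg (aeval T.x) h3
  rw [map_sub, map_mul, aeval_X, T.x_zero, one_mul] at h4
  rw [← h4, eq_comm, sub_eq_self]
  split_ifs
  · rw [map_mul, T.aeval_F hF, zero_mul]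
  · rw [map_zero]

private theorem not_dvd (hn : 1 ≤ n) (a : Fin (n + 1)) : ¬ br F ∣ X a := by
  intro h
  have hp : Prime (X a : MvPolynomial (Fin (n + 1)) K) := X_prime
  have h1 : X a ∣ br F := by
    have h2 : Irreducible (br F) := hF.irr0
    exact (h2.associated_of_dvd hp.irreducible h).symm.dvd
  obtain ⟨Q, hQ⟩ := h1
  obtain ⟨j, hj⟩ : ∃ j : Fin (n + 1), j ≠ a := by
    have : Nontrivial (Fin (n + 1)) := Fin.nontrivial_iff_two_le.mpr (by omega)
    exact exists_ne a
  have h3 := coeff_br F j d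
  rw [hQ, mul_comm, coeff_mul_X', if_neg] at h3
  · exact hF.diag _ h3.symm
  · intro h4
    rw [Finsupp.mem_support_iff, Finsupp.single_apply] at h4
    exact h4 (if_neg hj)

private theorem cancel (hn : 1 ≤ n) (a : Fin (n + 1)) (r : ℕ) {P : MvPolynomial (Fin (n + 1)) K}
    (h : br F ∣ X a ^ r * P) : br F ∣ P := by
  have h1 : Prime (br F) := (show Irreducible (br F) from hF.irr0).prime
  rcases h1.dvd_or_dvd h with h2 | h2
  · exact absurd (h1.dvd_of_dvd_pow h2) (not_dvd hF hn a)
  · exact h2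

private theorem comp_dvd (N : ℕ) {A : MvPolynomial (Fin (n + 1)) K} (h : br F ∣ A) :
    br F ∣ homogeneousComponent N A := by
  obtain ⟨H, rfl⟩ := h
  rw [comp_mul (br_hom hF.hom)]
  split_ifs
  · exact dvd_mul_right _ _
  · exact dvd_zero _

omit hF in
private theorem exp_aux {x : T.L} (hx : x ≠ 0) (s : ℤ) (k r M N : ℕ) (hN : (k : ℤ) + s = N) (hN1 : 1 ≤ N) :
    x ^ (k + r) * x ^ M * x ^ (s - 1 - r) = x ^ (M + N - 1) := by
  rw [← zpow_natCast x (k + r), ← zpow_natCast x M, ← zpow_natCast x (M + N - 1), ← zpow_add₀ hx,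
    ← zpow_add₀ hx]
  congr 1
  push_cast [Nat.cast_sub (show 1 ≤ M + N by omega)]
  rw [← hN]
  ring

/-- comparison of two charts -/
private theorem key (hn : 1 ≤ n) (s : ℤ) {a b : Fin (n + 1)} {ka kb Na Nb : ℕ} {u v : T.L} {P Q : HP K n}
    (hNa : (ka : ℤ) + s = Na) (hNb : (kb : ℤ) + s = Nb) (h1 : 1 ≤ Na)
    (hP : P.IsHomogeneous Na) (hQ : Q.IsHomogeneous Nb) (hu : T.x a.succ ^ ka * u = aeval T.x P)
    (hv : T.x b.succ ^ kb * v = aeval T.x Q) (h : u - v ∈ T.loc (T.OO (s - 1)) a.succ b.succ) :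
    br F ∣ X b ^ kb * br P - X a ^ ka * br Q := by
  have ha := T.x_ne a.succ
  have hb := T.x_ne b.succ
  obtain ⟨M, hM⟩ := h
  obtain ⟨r, G, hG, hG2⟩ := (T.mem_OO' _ _ _).mp hM
  rw [smul_eq_mul, div_pow] at hG2
  set A : HP K n := X b.succ ^ (M + kb) * X a.succ ^ r * P - X b.succ ^ M * X a.succ ^ (ka + r) * Q with hA
  set B : HP K n := X 0 * X b.succ ^ kb * X a.succ ^ (M + Na - 1) * G with hB
  have hAh : A.IsHomogeneous (M + kb + r + Na) := by
    refine IsHomogeneous.sub ?_ ?_
    · exact ((isHomogeneous_X_pow _ _).mul (isHomogeneous_X_pow _ _)).mul hP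
    · have h2 : M + (ka + r) + Nb = M + kb + r + Na := by
        zify
        rw [← hNa, ← hNb]
        ring
      rw [← h2]
      exact ((isHomogeneous_X_pow _ _).mul (isHomogeneous_X_pow _ _)).mul hQ
  have hBh : B.IsHomogeneous (M + kb + r + Na) := by
    have h2 : 1 + kb + (M + Na - 1) + r = M + kb + r + Na := by omega
    rw [← h2]
    exact (((isHomogeneous_X K _).mul (isHomogeneous_X_pow _ _)).mul (isHomogeneous_X_pow _ _)).mul hG
  have hAB : aeval T.x A = aeval T.x B := by
    rw [hA, hB, map_sub, map_mul, map_mul, map_mul, map_mul, map_mul, map_mul, map_mul, map_pow, map_pow,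
      map_pow, map_pow, map_pow, map_pow, aeval_X, aeval_X, aeval_X, T.x_zero, one_mul, ← hu, ← hv,
      ← T.exp_aux ha s ka r M Na hNa h1]
    have h3 : T.x b.succ ^ M * (u - v) = T.x a.succ ^ M * (T.x a.succ ^ (s - 1 - (r : ℤ)) * aeval T.x G) := by
      rw [← hG2]
      field_simp
    have h4 : T.x b.succ ^ (M + kb) * T.x a.succ ^ r * (T.x a.succ ^ ka * u) -
        T.x b.succ ^ M * T.x a.succ ^ (ka + r) * (T.x b.succ ^ kb * v) =
        T.x b.succ ^ kb * T.x a.succ ^ (ka + r) * (T.x b.succ ^ M * (u - v)) := by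
      rw [pow_add, pow_add]
      ring
    rw [h4, h3]
    ring
  have h5 := T.F_dvd hAh hBh hAB
  have h6 : br F ∣ br (A - B) := by
    obtain ⟨W, hW⟩ := h5
    rw [hW, map_mul]
    exact dvd_mul_right _ _
  have h7 : br (A - B) = X b ^ M * (X a ^ r * (X b ^ kb * br P - X a ^ ka * br Q)) := by
    rw [hA, hB, map_sub, map_sub, map_mul, map_mul, map_mul, map_mul, map_mul, map_mul, map_mul, map_pow, map_pow,
      map_pow, map_pow, br_X0, br_Xs, br_Xs]
    ring
  rw [h7] at h6
  exact cancel hF hn a r (cancel hF hn b M h6)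

omit hF in
private theorem rep (s : ℤ) (i : Fin (n + 2)) {v : T.L} (hv : v ∈ T.OO s i) :
    ∃ (k N : ℕ) (P : HP K n), (k : ℤ) + s = N ∧ 1 ≤ N ∧ P.IsHomogeneous N ∧ T.x i ^ k * v = aeval T.x P := by
  have hi := T.x_ne i
  obtain ⟨t, P, hP, rfl⟩ := (T.mem_OO' _ _ _).mp hv
  obtain ⟨m, hm⟩ : ∃ m : ℕ, (m : ℤ) = s.natAbs + 1 + s := ⟨(s.natAbs + 1 + s).toNat, by
    rw [Int.toNat_of_nonneg]
    omega⟩
  refine ⟨t + s.natAbs + 1, m + t, X i ^ m * P, ?_, ?_, ?_, ?_⟩
  · omega
  · omega
  · exact (isHomogeneous_X_pow i m).mul hP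
  · rw [map_mul, map_pow, aeval_X, ← mul_assoc]
    congr 1
    rw [← zpow_natCast, ← zpow_natCast, ← zpow_add₀ hi]
    congr 1
    omega

/-- H0Y -/
theorem H0_Y [CharZero K] (hn : 2 ≤ n) (s : ℤ) (h : Fin (n + 2) → T.L) (hh : ∀ i, h i ∈ T.OO s i)
    (hc : ∀ i j, h i - h j ∈ T.loc (T.OO (s - 1)) i j) :
    (s < 0 → ∀ i, h i ∈ T.OO (s - 1) i) ∧
    (0 ≤ s → ∃ P : HP K n, P.IsHomogeneous s.toNat ∧ ∀ i, h i - aeval T.x P ∈ T.OO (s - 1) i) := by
  choose k N P h1 h2 h3 h4 using fun a : Fin (n + 1) => rep T s a.succ (hh a.succ)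
  have hk : ∀ a b, br F ∣ X b ^ k b * br (P a) - X a ^ k a * br (P b) := fun a b =>
    T.key hF (by omega) s (h1 a) (h1 b) (h2 a) (h3 a) (h3 b) (h4 a) (h4 b) (hc a.succ b.succ)
  have hF0 : coeff (Finsupp.single 0 d) (br F) ≠ 0 := by
    rw [coeff_br]
    exact hF.diag _
  set a0 : Fin (n + 1) := (⟨0, by omega⟩ : Fin n).succ with ha0
  obtain ⟨R, hR⟩ := regular (br_hom hF.hom) hF0 (i := ⟨0, by omega⟩) (j := ⟨1, by omega⟩)
    (by rw [Ne, Fin.mk.injEq]; omega) _ _ (hk a0 (⟨1, by omega⟩ : Fin n).succ)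
  rw [← ha0] at hR
  -- all charts
  have hall : ∀ R' : MvPolynomial (Fin (n + 1)) K, br F ∣ br (P a0) - X a0 ^ k a0 * R' →
      ∀ a, br F ∣ br (P a) - X a ^ k a * R' := by
    intro R' hR' a
    refine cancel hF (by omega) a0 (k a0) ?_
    have h5 : X a0 ^ k a0 * (br (P a) - X a ^ k a * R') =
        (X a0 ^ k a0 * br (P a) - X a ^ k a * br (P a0)) + X a ^ k a * (br (P a0) - X a0 ^ k a0 * R') := by
      ring
    rw [h5]
    exact dvd_add (hk a a0) (hR'.mul_left _)
  -- membership
  have hmem : ∀ (a : Fin (n + 1)) (G : HP K n), G.IsHomogeneous (N a) → br F ∣ br (P a - G) →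
      ∀ g : T.L, T.x a.succ ^ k a * g = aeval T.x G → h a.succ - g ∈ T.OO (s - 1) a.succ := by
    intro a G hG hd g hg
    have ha := T.x_ne a.succ
    have hN : N a = (N a - 1) + 1 := by have := h2 a; omega
    obtain ⟨E, hE1, hE2⟩ := T.fin_lem hF (N := N a - 1) (by rw [← hN]; exact (h3 a).sub hG) hd
    refine (T.mem_OO' _ _ _).mpr ⟨N a - 1, E, hE1, ?_⟩
    rw [← hE2, map_sub, ← h4 a, ← hg, ← mul_sub]
    have h6 : s - 1 - ((N a - 1 : ℕ) : ℤ) = -(k a : ℤ) := by
      have h7 := h1 a
      have h8 := h2 a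
      push_cast [Nat.cast_sub h8]
      rw [← h7]
      ring
    rw [h6, zpow_neg, zpow_natCast, inv_mul_cancel_left₀ (pow_ne_zero _ ha)]
  have hzero : ∀ g : T.L, g ∈ T.OO s 0 → g ∈ T.OO (s - 1) 0 := by
    intro g hg
    obtain ⟨t, Q, hQ, rfl⟩ := (T.mem_OO' _ _ _).mp hg
    refine (T.mem_OO' _ _ _).mpr ⟨t, Q, hQ, ?_⟩
    rw [T.x_zero, one_zpow, one_zpow]
  constructor
  · intro hs i
    have h5 : ∀ a, br F ∣ br (P a) := by
      intro a
      have h6 := hall 0 (by
        rw [mul_zero, sub_zero]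
        have h7 := comp_dvd hF (N a0) hR
        rw [map_sub, comp_self (br_hom (h3 a0)), comp_mul (isHomogeneous_X_pow _ _), if_neg, sub_zero] at h7
        · exact h7
        · have := h1 a0
          omega) a
      rwa [mul_zero, sub_zero] at h6
    refine Fin.cases ?_ (fun a => ?_) i
    · exact hzero _ (hh 0)
    · have h6 := hmem a 0 (isHomogeneous_zero _ _ _) (by rw [sub_zero]; exact h5 a) 0 (by
        rw [mul_zero, map_zero])
      rwa [sub_zero] at h6
  · intro hs
    have hst : (s.toNat : ℤ) = s := Int.toNat_of_nonneg hs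
    have hNk : ∀ a, N a = k a + s.toNat := by
      intro a
      have := h1 a
      omega
    set R' := homogeneousComponent s.toNat R with hR'
    have h5 := hall R' (by
      have h7 := comp_dvd hF (N a0) hR
      rw [map_sub, comp_self (br_hom (h3 a0)), comp_mul (isHomogeneous_X_pow _ _), hNk a0,
        if_pos (Nat.le_add_right _ _), Nat.add_sub_cancel_left] at h7
      exact h7)
    have hRh : (rename Fin.succ R' : HP K n).IsHomogeneous s.toNat :=
      (homogeneousComponent_isHomogeneous s.toNat R).rename_isHomogeneous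
    refine ⟨rename Fin.succ R', hRh, fun i => ?_⟩
    refine Fin.cases ?_ (fun a => ?_) i
    · refine Submodule.sub_mem _ (hzero _ (hh 0)) ?_
      refine (T.mem_OO' _ _ _).mpr ⟨s.toNat, _, hRh, ?_⟩
      rw [T.x_zero, one_zpow, one_mul]
    · refine hmem a (X a.succ ^ k a * rename Fin.succ R') ?_ ?_ _ ?_
      · rw [hNk a]
        exact (isHomogeneous_X_pow _ _).mul hRh
      · rw [map_sub, map_mul, map_pow, br_Xs, br_ren]
        exact h5 a
      · rw [map_mul, map_pow, aeval_X]

theorem H0_Y_zero [CharZero K] (hn : 2 ≤ n) (s : ℕ) (P : HP K n) (hP : P.IsHomogeneous s) (i : Fin (n + 2))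
    (hi : i ≠ 0) :
    aeval T.x P ∈ T.OO ((s : ℤ) - 1) i ↔ aeval (Fin.cons 0 X : Fin (n + 2) → MvPolynomial (Fin (n + 1)) K) F ∣
      aeval (Fin.cons 0 X : Fin (n + 2) → MvPolynomial (Fin (n + 1)) K) P := by
  obtain ⟨a, rfl⟩ := Fin.exists_succ_eq.mpr hi
  change _ ↔ br F ∣ br P
  have ha := T.x_ne a.succ
  constructor
  · intro h
    obtain ⟨r, G, hG, h1⟩ := (T.mem_OO' _ _ _).mp h
    have hA : (X a.succ ^ (r + 1) * P : HP K n).IsHomogeneous (r + 1 + s) :=
      (isHomogeneous_X_pow _ _).mul hP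
    have hB : (X 0 * X a.succ ^ s * G : HP K n).IsHomogeneous (r + 1 + s) := by
      have h2 : 1 + s + r = r + 1 + s := by ring
      rw [← h2]
      exact ((isHomogeneous_X K _).mul (isHomogeneous_X_pow _ _)).mul hG
    have h3 := T.F_dvd hA hB (by
      rw [map_mul, map_mul, map_mul, map_pow, map_pow, aeval_X, aeval_X, T.x_zero, one_mul, h1, ← mul_assoc]
      congr 1
      rw [← zpow_natCast, ← zpow_natCast, ← zpow_add₀ ha]
      congr 1
      push_cast
      ring)
    have h4 : br F ∣ br (X a.succ ^ (r + 1) * P - X 0 * X a.succ ^ s * G) := by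
      obtain ⟨W, hW⟩ := h3
      rw [hW, map_mul]
      exact dvd_mul_right _ _
    rw [map_sub, map_mul, map_mul, map_mul, map_pow, br_X0, br_Xs, zero_mul, zero_mul, sub_zero] at h4
    exact cancel hF (by omega) a (r + 1) h4
  · intro h
    rcases s with _ | s
    · have h1 : P = 0 := by
        have h2 : P = C (coeff 0 P) := by
          rw [← homogeneousComponent_zero, comp_self hP]
        by_contra h3
        have h4 : coeff 0 P ≠ 0 := by
          intro h5
          rw [h5, C_0] at h2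
          exact h3 h2
        have h6 : br P = C (coeff 0 P) := by
          conv_lhs => rw [h2]
          unfold br
          rw [aeval_C, algebraMap_eq]
        rw [h6] at h
        have h7 : IsUnit (C (coeff 0 P) : MvPolynomial (Fin (n + 1)) K) :=
          (isUnit_iff_ne_zero.mpr h4).map C
        exact (show Irreducible (br F) from hF.irr0).not_isUnit (isUnit_of_dvd_unit h h7)
      rw [h1, map_zero]
      exact Submodule.zero_mem _
    · obtain ⟨E, hE, h1⟩ := T.fin_lem hF hP h
      refine (T.mem_OO' _ _ _).mpr ⟨s, E, hE, ?_⟩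
      rw [h1]
      have h2 : (((s + 1 : ℕ) : ℤ) - 1 - (s : ℤ)) = 0 := by
        push_cast
        ring
      rw [h2, zpow_zero, one_mul]

end FF

end Pool.Agent.H47.UG
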