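import Pool.Agent.H33.UG.A1
import Pool.Agent.H85.UG.Det

/-!
# Block A, module DET: the determinant of a chart
-/

set_option autoImplicit false

open MvPolynomial

noncomputable section

namespace Pool.Agent.H47.UG.FF

variable {K : Type} [Field K] {n d : ℕ} {F : HP K n} (T : FF d F) [CharZero K] (hF : Nice d F)

include hF

/-- DET -/
theorem det_y (hd : 2 ≤ d) {k : ℕ} (i : Fin (n + 2)) (j : Fin (n + 1)) (c : Fin n → Fin k) :
    ∃ ε : ℤˣ, Matrix.det (Matrix.of fun l r : Fin n => T.δ (c r) (T.y i j l)) =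
      ((ε : ℤ) : T.BB) * C (T.x i ^ ((d : ℤ) - n - 2) * T.u i (i.succAbove j)) * T.ρ c :=
  Pool.Agent.H85.UG.FFDet.det_y_of T (T.euler hF) (T.chain hF) (T.fd_ne hF hd _) hd i j c

end Pool.Agent.H47.UG.FF

end
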