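import Pool.Agent.H47.UG.Van
import Pool.Agent.H47.UG.Sec
import Pool.Agent.H47.UG.Filt
import Pool.Agent.H73.UG.YbFin

set_option autoImplicit false

open MvPolynomial

namespace Pool.Agent.H47.UG.FF

variable {K : Type} [Field K] [CharZero K] {n d : ℕ} {F : HP K n} (T : FF d F) (hF : Nice d F)

include hF

/-- Going down from `e` to `e - J`. -/
theorem chain_H1 (hn : 2 ≤ n) (hd : 2 ≤ d) (k p m q : ℕ) (e : ℤ) (s : ℕ) (hs : e + ((d : ℤ) - 2) * q ≤ s)
    (htop : T.H1zero (T.GG k e m q)) (J : ℕ)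
    (hz : ∀ j : ℕ, j < J → T.H1zero (T.GP k p (e - j - 1) m q)) :
    T.H1le (T.GG k (e - J) m q)
      (J * ((monNum n k m q - Module.finrank K (IP K n k p m q)) * hyp (n - 1) d s)) := by
  induction J with
  | zero =>
    refine ⟨0, fun v hv _ => ?_⟩
    have h := htop v (by simpa using hv)
    simpa using h
  | succ J ih =>
    have h1 := ih fun j hj => hz j (by omega)
    have h2 := T.ybound hF hn hd k p m q (e - J) _ s (hz J (by omega)) h1 (by linarith)
    have e1 : e - ((J + 1 : ℕ) : ℤ) = e - J - 1 := by push_cast; ring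
    rw [e1]
    have e2 : (J + 1) * ((monNum n k m q - Module.finrank K (IP K n k p m q)) * hyp (n - 1) d s) =
        J * ((monNum n k m q - Module.finrank K (IP K n k p m q)) * hyp (n - 1) d s) +
        (monNum n k m q - Module.finrank K (IP K n k p m q)) * hyp (n - 1) d s := by ring
    rw [e2]
    exact h2

/-- MAIN A -/
theorem mainA (hn : 2 ≤ n) (hd : 2 ≤ d) (k : ℕ) : ∃ c₀ : ℕ, ∀ m b p c : ℕ,
    (c : ℤ) + 2 * m + b ≤ p * ((d : ℤ) - n - 2) → c₀ ≤ c →
    ∃ H : Submodule K T.BB, H ≤ H0 (T.EE k (-(b : ℤ)) m) ∧ FiniteDimensional K H ∧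
      (∑ q ∈ Finset.range (m + 1), Module.finrank K (IP K n k p m q)) * hyp n d c ≤
        Module.finrank K H + (b + 2 * m + c₀) *
          ((∑ q ∈ Finset.range (m + 1), (monNum n k m q - Module.finrank K (IP K n k p m q))) *
            hyp (n - 1) d (d * m + c₀)) := by
  obtain ⟨c₀, hc₀⟩ := T.vanish hF hd k
  refine ⟨c₀, fun m b p c h1 h2 => ?_⟩
  have hd' : (2 : ℤ) ≤ d := by exact_mod_cast hd
  have h2' : (c₀ : ℤ) ≤ c := by exact_mod_cast h2
  have key : ∀ q ≤ m, T.H1le (T.GG k (-(b : ℤ)) m q)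
      ((b + 2 * m + c₀) * ((monNum n k m q - Module.finrank K (IP K n k p m q)) *
        hyp (n - 1) d (d * m + c₀))) := by
    intro q hq
    have hq' : (q : ℤ) ≤ m := by exact_mod_cast hq
    have h3 := T.chain_H1 hF hn hd k p m q (2 * m + c₀) (d * m + c₀) (by
      push_cast
      nlinarith) (by
      rw [← T.GP_zero hF]
      refine hc₀ 0 m q _ ?_
      push_cast
      linarith) (b + 2 * m + c₀) (fun j hj => by
      refine hc₀ p m q _ ?_
      have hj' : (j : ℤ) + 1 ≤ b + 2 * m + c₀ := by exact_mod_cast hj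
      linarith)
    have e1 : (2 * (m : ℤ) + c₀) - ((b + 2 * m + c₀ : ℕ) : ℤ) = -b := by push_cast; ring
    rw [e1] at h3
    exact h3
  obtain ⟨H, hH, hfin, hle⟩ := T.filt hF hd k (-(b : ℤ)) m
    (fun q => Module.finrank K (IP K n k p m q) * hyp n d c) _ (fun q hq => by
      have hq' : (q : ℤ) ≤ m := by exact_mod_cast hq
      exact T.sections hF hd k p m q c _ (by linarith)) key
  refine ⟨H, hH, hfin, ?_⟩
  rw [Finset.sum_mul, Finset.sum_mul, Finset.mul_sum]
  exact hle

end Pool.Agent.H47.UG.FF
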