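import Pool.Agent.H47.UG.Lat

/-!
# Good polynomials: powers of the ideal of the maximal minors
-/

set_option autoImplicit false

open MvPolynomial

namespace Pool.Agent.H47.UG

/-- Bihomogeneous part (weight `m`, degree `q`) of the `p`-th power of the ideal of the `n × n` minors of the
matrix `X(s,l)`, `s < k`. -/
noncomputable def IP (K : Type) [Field K] (n k p m q : ℕ) : Submodule K (MvPolynomial (ℕ × Fin n) K) :=
  Submodule.span K {v | ∃ (c : Fin p → Fin n → Fin k) (q' : ℕ) (s : Fin q' → Fin k) (l : Fin q' → Fin n),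
    q' + p * n = q ∧ ∑ r, ((s r : ℕ) + 1) + ∑ r, ∑ t, ((c r t : ℕ) + 1) = m ∧
    v = (∏ r, Matrix.det (Matrix.of fun l t : Fin n => (X ((c r t : ℕ), l) : MvPolynomial (ℕ × Fin n) K))) *
      ∏ r, X ((s r : ℕ), l r)}

/-- Number of the monomials of weight `m` and degree `q`. -/
noncomputable def monNum (n k m q : ℕ) : ℕ :=
  Nat.card {a : Fin k × Fin n →₀ ℕ // Finsupp.weight (fun p : Fin k × Fin n => (p.1 : ℕ) + 1) a = m ∧ a.degree = q}

/-- `h⁰(O(s))` on a hypersurface of degree `d` and dimension `n`. -/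
def hyp (n d s : ℕ) : ℕ := (s + n + 1).choose (n + 1) - (s + n + 1 - d).choose (n + 1)

end Pool.Agent.H47.UG
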