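import Pool.Agent.H47.KB.Defs

/-!
# Brody curves and the Green-Griffiths-Lang property for Brody curves
-/

set_option autoImplicit false

open MvPolynomial

namespace Pool.Agent.H47.UG

open Pool.Agent.H47.KB

/-- Entire curve in `{F = 0}` with bounded spherical derivative. -/
def Brody {n : ℕ} (F : Frm n) (g : ℂ → Vec n) : Prop :=
  Entire F g ∧ ∃ C : ℝ, ∀ (z : ℂ) (i j : Fin (n + 2)), ‖g z i * deriv g z j - g z j * deriv g z i‖ ≤ C * ‖g z‖ ^ 2

/-- A polynomial `Q` in the coefficients and the coordinates vanishes on all Brody curves in hypersurfaces of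
degree `d` in `ℙ^{n+1}`, but not on the universal hypersurface. -/
def GGLB (n d : ℕ) : Prop :=
  ∃ Q : Fam n, (∃ (F : Frm n) (p : Vec n), F.IsHomogeneous d ∧ p ≠ 0 ∧ eval p F = 0 ∧ eval p (spec Q F) ≠ 0) ∧
    ∀ F : Frm n, F.IsHomogeneous d → ∀ g : ℂ → Vec n, Brody F g → ¬ IsConst g → ∀ z, eval (g z) (spec Q F) = 0

end Pool.Agent.H47.UG
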