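import Pool.Agent.H47.UG.Alg

/-!
# Definitions: charts `(i,j)`, linear change of coordinates, Koszul fields, the generic form
-/

set_option autoImplicit false

open MvPolynomial

namespace Pool.Agent.H47.UG

namespace FF

variable {K : Type} [Field K] {n d : ℕ} {F : HP K n} (T : FF d F)

/-- The chart `(i,j)`: the coordinates `y l = x_{i.succAbove (j.succAbove l)} / x_i`, valid where
`u_{i, i.succAbove j} ≠ 0`. -/
noncomputable def y (i : Fin (n + 2)) (j : Fin (n + 1)) (l : Fin n) : T.L :=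
  T.x (i.succAbove (j.succAbove l)) / T.x i

/-- The linear change of the jet coordinates on the chart. -/
noncomputable def σ (i : Fin (n + 2)) (j : Fin (n + 1)) : T.BB →ₐ[T.L] T.BB :=
  aeval fun p : ℕ × Fin n => T.δ p.1 (T.y i j p.2)

/-- `x_i^e A_i [1 / u_{ij}]` -/
def locA (e : ℤ) (i j : Fin (n + 2)) : Set T.L := {a | ∃ N : ℕ, T.u i j ^ N * a ∈ T.OO e i}

/-- The value at `x_l` of the Koszul field `F_p ∂_q - F_q ∂_p` (in the chart `x_0 = 1`). -/
noncomputable def Dt (pq : Fin (n + 2) × Fin (n + 2)) (l : Fin (n + 2)) : T.L :=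
  (T.fd pq.1 * (if pq.2 = l then 1 else 0) - T.fd pq.2 * (if pq.1 = l then 1 else 0)) -
    T.x l * (T.fd pq.1 * (if pq.2 = 0 then 1 else 0) - T.fd pq.2 * (if pq.1 = 0 then 1 else 0))

/-- The Koszul field as a derivation of `L`. -/
noncomputable def Ko (pq : Fin (n + 2) × Fin (n + 2)) : Derivation K T.L T.L :=
  ∑ l : Fin n, T.Dt pq l.succ.castSucc • T.par l

/-- Polynomials in the constant variables `Z(s, pq)`. -/
abbrev ZZ := MvPolynomial (ℕ × (Fin (n + 2) × Fin (n + 2))) T.L

/-- `Ψ`: the embedding given by the Koszul fields. -/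
noncomputable def ψ : T.BB →ₐ[T.L] T.ZZ :=
  aeval fun p : ℕ × Fin n => ∑ pq, C (T.Dt pq p.2.succ.castSucc) * X (p.1, pq)

end FF

/-- The generic form of degree `d` in `n + 2` variables. -/
noncomputable def genForm (n d : ℕ) : HP (FractionRing (MvPolynomial ((Fin (n + 2)) →₀ ℕ) ℂ)) n :=
  ∑ a ∈ (Finset.finsuppAntidiag Finset.univ d : Finset (Fin (n + 2) →₀ ℕ)),
    monomial a (algebraMap (MvPolynomial ((Fin (n + 2)) →₀ ℕ) ℂ) _ (X a))

/-- Multiples of `G` among the forms of degree `s`. -/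
noncomputable def mult {K : Type} [Field K] {N : ℕ} (G : MvPolynomial (Fin N) K) (s : ℕ) :
    Submodule K (homogeneousSubmodule (Fin N) K s) :=
  ((Ideal.span {G}).restrictScalars K).comap (homogeneousSubmodule (Fin N) K s).subtype

end Pool.Agent.H47.UG
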