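import Mathlib

/-!
# General hypersurfaces are hyperbolic, unconditionally: the algebraic objects

`X = {F = 0}` is a hypersurface of degree `d` in `ℙ^{n+1}` over a field `K` of characteristic `0`. Everything
happens in the affine chart `x₀ = 1`: `L = K(X)`, `x j ∈ L` are the coordinates, `x₁, .., x_n` a transcendence
basis, `BB = L[ξ_l^{(s+1)} : s ∈ ℕ, l < n]`, the variable `(s, l)` is `ξ_l^{(s+1)}`.
-/

set_option autoImplicit false

open MvPolynomial

namespace Pool.Agent.H47.UG

/-- Polynomials in the homogeneous coordinates. -/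
abbrev HP (K : Type) [Field K] (n : ℕ) := MvPolynomial (Fin (n + 2)) K

/-- The properties of the form `F` which are used. -/
structure Nice {K : Type} [Field K] {n : ℕ} (d : ℕ) (F : HP K n) : Prop where
  hom : F.IsHomogeneous d
  irr : Irreducible F
  /-- smoothness -/
  smooth : ∃ N : ℕ, ∀ i, (X i : HP K n) ^ N ∈ Ideal.span (Set.range fun j => pderiv j F)
  /-- all the powers `X_j^d` occur -/
  diag : ∀ j, coeff (Finsupp.single j d) F ≠ 0
  /-- the section with `x₀ = 0` is irreducible -/
  irr0 : Irreducible (aeval (Fin.cons 0 X : Fin (n + 2) → MvPolynomial (Fin (n + 1)) K) F)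

/-- The function field of `X`. -/
structure FF {K : Type} [Field K] {n : ℕ} (d : ℕ) (F : HP K n) where
  L : Type
  [fld : Field L]
  [alg : Algebra K L]
  x : Fin (n + 2) → L
  x_zero : x 0 = 1
  x_ne : ∀ i, x i ≠ 0
  ker : ∀ (s : ℕ) (P : HP K n), P.IsHomogeneous s → (aeval x P = 0 ↔ F ∣ P)
  gen : ∀ u : L, ∃ (s : ℕ) (P Q : HP K n), P.IsHomogeneous s ∧ Q.IsHomogeneous s ∧ aeval x Q ≠ 0 ∧
    u = aeval x P / aeval x Q
  par : Fin n → Derivation K L L
  par_x : ∀ l l' : Fin n, par l (x l'.succ.castSucc) = if l = l' then 1 else 0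

attribute [instance] FF.fld FF.alg

namespace FF

variable {K : Type} [Field K] {n d : ℕ} {F : HP K n} (T : FF d F)

/-- The value of the partial derivative `∂F/∂X_j`. -/
noncomputable def fd (j : Fin (n + 2)) : T.L := aeval T.x (pderiv j F)

/-- The coordinate ring of the chart `x_i ≠ 0`. -/
noncomputable def A (i : Fin (n + 2)) : Subalgebra K T.L := Algebra.adjoin K (Set.range fun l => T.x l / T.x i)

/-- `u_{ij} = F_j / x_i^{d-1}` -/
noncomputable def u (i j : Fin (n + 2)) : T.L := T.fd j / T.x i ^ (d - 1)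

/-- Jets: the variable `(s, l)` is the derivative of order `s + 1` of `x_{l+1}`. -/
abbrev BB := MvPolynomial (ℕ × Fin n) T.L

/-- Weights of the jet coordinates. -/
def w (p : ℕ × Fin n) : ℕ := p.1 + 1

/-- The symbol of order `s + 1` of `v ∈ L`. -/
noncomputable def δ (s : ℕ) (v : T.L) : T.BB := ∑ l, C (T.par l v) * X (s, l)

end FF

end Pool.Agent.H47.UG
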