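import Pool.Agent.H47.UG.Alg

/-!
# Rules for the symbols `δ s v`, and the relation of the symbols on a chart
-/

set_option autoImplicit false

open MvPolynomial

namespace Pool.Agent.H47.UG.FF

variable {K : Type} [Field K] {n d : ℕ} {F : HP K n} (T : FF d F)

theorem δ_add (s : ℕ) (u v : T.L) : T.δ s (u + v) = T.δ s u + T.δ s v := by
  simp only [δ, map_add, add_mul, Finset.sum_add_distrib]

theorem δ_mul (s : ℕ) (u v : T.L) : T.δ s (u * v) = C u * T.δ s v + C v * T.δ s u := by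
  simp only [δ, Finset.mul_sum, ← Finset.sum_add_distrib, Derivation.leibniz, smul_eq_mul, map_add, map_mul]
  exact Finset.sum_congr rfl fun l _ => by ring

theorem δ_neg (s : ℕ) (u : T.L) : T.δ s (-u) = -T.δ s u := by
  simp only [δ, map_neg, neg_mul, Finset.sum_neg_distrib]

theorem δ_sub (s : ℕ) (u v : T.L) : T.δ s (u - v) = T.δ s u - T.δ s v := by
  rw [sub_eq_add_neg, δ_add, δ_neg, ← sub_eq_add_neg]

theorem δ_zero (s : ℕ) : T.δ s 0 = 0 := by simp [δ]

theorem δ_one (s : ℕ) : T.δ s 1 = 0 := by simp [δ]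

theorem δ_const (s : ℕ) (a : K) : T.δ s (algebraMap K T.L a) = 0 := by
  simp [δ, Derivation.map_algebraMap]

theorem δ_smul (s : ℕ) (a : K) (u : T.L) : T.δ s (a • u) = a • T.δ s u := by
  simp only [δ, Derivation.map_smul, Finset.smul_sum]
  refine Finset.sum_congr rfl fun l _ => ?_
  rw [Algebra.smul_def, map_mul, mul_assoc, Algebra.smul_def]
  rfl

theorem δ_sum {ι : Type*} (I : Finset ι) (s : ℕ) (u : ι → T.L) : T.δ s (∑ i ∈ I, u i) = ∑ i ∈ I, T.δ s (u i) := by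
  simp only [δ, map_sum, Finset.sum_mul]
  exact Finset.sum_comm

theorem δ_x_zero (s : ℕ) : T.δ s (T.x 0) = 0 := by rw [T.x_zero, δ_one]

/-- The coordinates of the jets. -/
theorem δ_x (s : ℕ) (l : Fin n) : T.δ s (T.x l.succ.castSucc) = X (s, l) := by
  classical
  simp only [δ, T.par_x]
  rw [Finset.sum_eq_single l]
  · simp
  · intro b _ hb
    simp [hb]
  · intro h
    exact absurd (Finset.mem_univ l) h

theorem δ_self (s : ℕ) (i : Fin (n + 2)) : T.δ s (T.x i / T.x i) = 0 := by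
  rw [div_self (T.x_ne i), δ_one]

theorem δ_div (s : ℕ) (u v : T.L) (hv : v ≠ 0) :
    T.δ s (u / v) = C (v⁻¹) * T.δ s u - C (u * (v⁻¹) ^ 2) * T.δ s v := by
  have h1 := T.δ_mul s (u / v) v
  rw [div_mul_cancel₀ u hv] at h1
  have h2 : (C (v⁻¹) : T.BB) * C v = 1 := by
    rw [← map_mul, inv_mul_cancel₀ hv, map_one]
  have h3 : T.δ s (u / v) = C (v⁻¹) * (C v * T.δ s (u / v)) := by
    rw [← mul_assoc, h2, one_mul]
  have h4 : C v * T.δ s (u / v) = T.δ s u - C (u / v) * T.δ s v := by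
    rw [h1]
    ring
  rw [h3, h4, mul_sub]
  congr 1
  rw [← mul_assoc, ← map_mul]
  congr 2
  rw [div_eq_mul_inv]
  ring

theorem δ_inv (s : ℕ) (v : T.L) (hv : v ≠ 0) : T.δ s v⁻¹ = -(C ((v⁻¹) ^ 2) * T.δ s v) := by
  have h := T.δ_div s 1 v hv
  rw [one_div, δ_one] at h
  rw [h]
  simp

/-- `x_i² δ (x_l / x_i) = x_i δ x_l - x_l δ x_i` -/
theorem δ_quot (s : ℕ) (i l : Fin (n + 2)) :
    C (T.x i ^ 2) * T.δ s (T.x l / T.x i) = C (T.x i) * T.δ s (T.x l) - C (T.x l) * T.δ s (T.x i) := by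
  have hx := T.x_ne i
  rw [T.δ_div s _ _ hx, mul_sub, ← mul_assoc, ← mul_assoc, ← map_mul, ← map_mul]
  congr 3
  · field_simp
  · field_simp

/-- The forms `x_a δ x_b - x_b δ x_a` on the chart `i`. -/
theorem δ_wedge (s : ℕ) (i a b : Fin (n + 2)) :
    C (T.x a) * T.δ s (T.x b) - C (T.x b) * T.δ s (T.x a) =
      C (T.x i ^ 2) * (C (T.x a / T.x i) * T.δ s (T.x b / T.x i) - C (T.x b / T.x i) * T.δ s (T.x a / T.x i)) := by
  have hx := T.x_ne i
  have h1 := T.δ_quot s i b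
  have h2 := T.δ_quot s i a
  have e1 : (C (T.x i) : T.BB) * C (T.x a / T.x i) = C (T.x a) := by
    rw [← map_mul, mul_div_cancel₀ _ hx]
  have e2 : (C (T.x i) : T.BB) * C (T.x b / T.x i) = C (T.x b) := by
    rw [← map_mul, mul_div_cancel₀ _ hx]
  calc C (T.x a) * T.δ s (T.x b) - C (T.x b) * T.δ s (T.x a)
      = C (T.x a / T.x i) * (C (T.x i) * T.δ s (T.x b) - C (T.x b) * T.δ s (T.x i)) -
        C (T.x b / T.x i) * (C (T.x i) * T.δ s (T.x a) - C (T.x a) * T.δ s (T.x i)) := by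
        rw [← e1, ← e2]
        ring
    _ = _ := by
        rw [← h1, ← h2]
        ring

/-- Change of the chart. -/
theorem δ_chart (s : ℕ) (i j l : Fin (n + 2)) :
    T.δ s (T.x l / T.x j) = C (T.x i / T.x j) * T.δ s (T.x l / T.x i) -
      C ((T.x l / T.x j) * (T.x i / T.x j)) * T.δ s (T.x j / T.x i) := by
  have hi := T.x_ne i
  have hj := T.x_ne j
  have h : T.x l / T.x j = (T.x l / T.x i) / (T.x j / T.x i) := by
    field_simp
  have hv : T.x j / T.x i ≠ 0 := div_ne_zero hj hi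
  conv_lhs => rw [h]
  have h1 : (T.x j / T.x i)⁻¹ = T.x i / T.x j := by rw [inv_div]
  have h2 : T.x l / T.x i * ((T.x j / T.x i)⁻¹) ^ 2 = T.x l / T.x j * (T.x i / T.x j) := by
    rw [h1]
    field_simp
  rw [T.δ_div s _ _ hv, h1, ← h1, h2, h1]

/-- The relation of the symbols on the chart `i`, from the chain rule and the Euler identity. -/
theorem rel_of (he : ∑ j, T.x j * T.fd j = 0) (hc : ∀ l : Fin n, ∑ j, T.fd j * T.par l (T.x j) = 0)
    (i : Fin (n + 2)) (s : ℕ) : ∑ l, C (T.u i l) * T.δ s (T.x l / T.x i) = 0 := by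
  have hx := T.x_ne i
  have h0 : ∑ l, C (T.fd l) * T.δ s (T.x l) = 0 := by
    simp only [δ, Finset.mul_sum]
    rw [Finset.sum_comm]
    refine Finset.sum_eq_zero fun a _ => ?_
    calc ∑ l, C (T.fd l) * (C (T.par a (T.x l)) * (X (s, a) : T.BB))
        = C (∑ l, T.fd l * T.par a (T.x l)) * X (s, a) := by
          rw [map_sum, Finset.sum_mul]
          exact Finset.sum_congr rfl fun l _ => by rw [map_mul]; ring
      _ = 0 := by rw [hc a]; simp
  have h1 : ∑ l, C (T.fd l) * (C (T.x i ^ 2) * T.δ s (T.x l / T.x i)) = 0 := by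
    calc ∑ l, C (T.fd l) * (C (T.x i ^ 2) * T.δ s (T.x l / T.x i))
        = ∑ l, (C (T.x i) * (C (T.fd l) * T.δ s (T.x l)) - C (T.x l * T.fd l) * T.δ s (T.x i)) := by
          refine Finset.sum_congr rfl fun l _ => ?_
          rw [δ_quot, map_mul]
          ring
      _ = C (T.x i) * ∑ l, C (T.fd l) * T.δ s (T.x l) - C (∑ l, T.x l * T.fd l) * T.δ s (T.x i) := by
          rw [Finset.sum_sub_distrib, Finset.mul_sum, map_sum, Finset.sum_mul]
      _ = 0 := by rw [h0, he]; simp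
  have h2 : ∑ l, C (T.u i l) * T.δ s (T.x l / T.x i) =
      C ((T.x i ^ (d - 1))⁻¹ * (T.x i ^ 2)⁻¹) * ∑ l, C (T.fd l) * (C (T.x i ^ 2) * T.δ s (T.x l / T.x i)) := by
    rw [Finset.mul_sum]
    refine Finset.sum_congr rfl fun l _ => ?_
    rw [← mul_assoc, ← mul_assoc, ← map_mul, ← map_mul]
    congr 2
    unfold u
    field_simp
  rw [h2, h1, mul_zero]

end Pool.Agent.H47.UG.FF
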