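import Mathlib

set_option autoImplicit false

open MvPolynomial

namespace Pool.Agent.H47.UG

section

variable {K L σ : Type} [Field K] [Field L] [Algebra K L]

/-- Coefficientwise derivation, as a linear map. -/
noncomputable def coefLin (δ : Derivation K L L) : MvPolynomial σ L →ₗ[K] MvPolynomial σ L where
  toFun P := ∑ a ∈ P.support, monomial a (δ (coeff a P))
  map_add' P Q := by
    classical
    ext b
    simp only [coeff_add, coeff_sum, coeff_monomial, Finset.sum_ite_eq', mem_support_iff, ne_eq]
    by_cases h1 : coeff b P = 0 <;> by_cases h2 : coeff b Q = 0 <;> by_cases h3 : coeff b P + coeff b Q = 0 <;>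
      simp_all [← map_add]
  map_smul' c P := by
    classical
    ext b
    simp only [coeff_smul, coeff_sum, coeff_monomial, Finset.sum_ite_eq', mem_support_iff, ne_eq,
      RingHom.id_apply]
    by_cases h1 : coeff b P = 0
    · simp [h1]
    · by_cases h2 : c = 0
      · simp [h2]
      · have h3 : c • coeff b P ≠ 0 := by
          rw [smul_ne_zero_iff]
          exact ⟨h2, h1⟩
        simp [h1, h3, Derivation.map_smul]

theorem coeff_coefLin (δ : Derivation K L L) (P : MvPolynomial σ L) (b : σ →₀ ℕ) :
    coeff b (coefLin δ P) = δ (coeff b P) := by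
  classical
  change coeff b (∑ a ∈ P.support, monomial a (δ (coeff a P))) = _
  simp only [coeff_sum, coeff_monomial, Finset.sum_ite_eq', mem_support_iff, ne_eq]
  by_cases h1 : coeff b P = 0 <;> simp [h1]

/-- Coefficientwise derivation. -/
noncomputable def coefDer (δ : Derivation K L L) : Derivation K (MvPolynomial σ L) (MvPolynomial σ L) :=
  Derivation.mk' (coefLin δ) fun P Q => by
    classical
    ext b
    rw [coeff_coefLin, coeff_mul, coeff_add]
    simp only [smul_eq_mul]
    rw [mul_comm Q, coeff_mul, coeff_mul, map_sum, ← Finset.sum_add_distrib]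
    refine Finset.sum_congr rfl fun x _ => ?_
    rw [coeff_coefLin, coeff_coefLin, Derivation.leibniz]
    simp only [smul_eq_mul]
    ring

theorem coefDer_C (δ : Derivation K L L) (u : L) : coefDer (σ := σ) δ (C u) = C (δ u) := by
  classical
  ext b
  change coeff b (coefLin δ (C u)) = _
  rw [coeff_coefLin, coeff_C, coeff_C]
  split_ifs <;> simp

theorem coefDer_X (δ : Derivation K L L) (i : σ) : coefDer (σ := σ) δ (X i) = 0 := by
  classical
  ext b
  change coeff b (coefLin δ (X i)) = _
  rw [coeff_coefLin, coeff_X']
  split_ifs <;> simp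

end

/-- The derivation of `L[X(s,l)]` with `D u = ∑ ∂_l u X(0,l)` and `D X(s,l) = X(s+1,l)`. -/
noncomputable def totD {K L : Type} [Field K] [Field L] [Algebra K L] {n : ℕ} (par : Fin n → Derivation K L L) :
    Derivation K (MvPolynomial (ℕ × Fin n) L) (MvPolynomial (ℕ × Fin n) L) :=
  (∑ l, (X (0, l) : MvPolynomial (ℕ × Fin n) L) • coefDer (par l)) +
    (mkDerivation L fun p : ℕ × Fin n => (X (p.1 + 1, p.2) : MvPolynomial (ℕ × Fin n) L)).restrictScalars K

theorem sum_der {K R ι : Type} [Field K] [CommRing R] [Algebra K R] (s : Finset ι) (f : ι → Derivation K R R) (P : R) :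
    (∑ l ∈ s, f l) P = ∑ l ∈ s, f l P := by
  classical
  induction s using Finset.induction_on with
  | empty => simp
  | insert a s ha ih => rw [Finset.sum_insert ha, Finset.sum_insert ha, Derivation.add_apply, ih]

theorem totD_C {K L : Type} [Field K] [Field L] [Algebra K L] {n : ℕ} (par : Fin n → Derivation K L L) (u : L) :
    totD par (C u) = ∑ l, C (par l u) * X (0, l) := by
  unfold totD
  rw [Derivation.add_apply, Derivation.restrictScalars_apply, ← algebraMap_eq, Derivation.map_algebraMap,
    add_zero, sum_der]
  refine Finset.sum_congr rfl fun l _ => ?_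
  rw [algebraMap_eq, Derivation.smul_apply, coefDer_C, smul_eq_mul, mul_comm]

theorem totD_X {K L : Type} [Field K] [Field L] [Algebra K L] {n : ℕ} (par : Fin n → Derivation K L L)
    (s : ℕ) (l : Fin n) : totD par (X (s, l)) = X (s + 1, l) := by
  unfold totD
  rw [Derivation.add_apply, Derivation.restrictScalars_apply, mkDerivation_X, sum_der,
    Finset.sum_eq_zero, zero_add]
  intro j _
  rw [Derivation.smul_apply, coefDer_X, smul_zero]

end Pool.Agent.H47.UG
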