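import Pool.Agent.H47.UG.Defs
import Pool.Agent.H47.UG.Der

/-!
# Lattices: families of `K`-subspaces indexed by the charts `x_i ≠ 0`
-/

set_option autoImplicit false

open MvPolynomial

namespace Pool.Agent.H47.UG.FF

variable {K : Type} [Field K] {n d : ℕ} {F : HP K n} (T : FF d F)

/-- A lattice in a vector space `V` over the function field: for each chart `x_i ≠ 0` a `K`-subspace. -/
abbrev Lat (V : Type) [AddCommGroup V] [Module K V] := Fin (n + 2) → Submodule K V

section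

variable {V : Type} [AddCommGroup V] [Module T.L V] [Module K V] [IsScalarTower K T.L V]

/-- The lattice is a family of modules over the rings `A i`. -/
def Stable (M : Lat (n := n) (K := K) V) : Prop := ∀ i, ∀ a ∈ T.A i, ∀ v ∈ M i, a • v ∈ M i

/-- The localisation of `M i` at `x_j / x_i`, as a set. -/
def loc (M : Lat (n := n) (K := K) V) (i j : Fin (n + 2)) : Set V :=
  {v | ∃ N : ℕ, (T.x j / T.x i) ^ N • v ∈ M i}

/-- The two localisations on `x_i x_j ≠ 0` agree. -/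
def Sym (M : Lat (n := n) (K := K) V) : Prop := ∀ i j, T.loc M i j = T.loc M j i

/-- Global sections. -/
def H0 (M : Lat (n := n) (K := K) V) : Submodule K V := ⨅ i, M i

/-- `v` is a cocycle. -/
def Cocyc (M : Lat (n := n) (K := K) V) (v : Fin (n + 2) → V) : Prop := ∀ i j, v i - v j ∈ T.loc M i j

/-- `v` is a coboundary. -/
def Cob (M : Lat (n := n) (K := K) V) (v : Fin (n + 2) → V) : Prop := ∃ w : V, ∀ i, v i - w ∈ M i

/-- `H¹ = 0` -/
def H1zero (M : Lat (n := n) (K := K) V) : Prop := ∀ v, T.Cocyc M v → Cob (n := n) M v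

/-- `h¹ ≤ N` -/
def H1le (M : Lat (n := n) (K := K) V) (N : ℕ) : Prop :=
  ∃ Φ : (Fin (n + 2) → V) →ₗ[K] (Fin N → K), ∀ v, T.Cocyc M v → Φ v = 0 → Cob (n := n) M v

end

/-- `O(e)`: the sections on the chart `i` are `x_i^e A_i`. -/
noncomputable def OO (e : ℤ) : Lat (n := n) (K := K) T.L := fun i =>
  Submodule.span K {v | ∃ a ∈ T.A i, v = T.x i ^ e * a}

/-- `Gr_{m,q}(e)`: symbols of weight `m` and degree `q` with values in `O(e)`; orders `≤ k`. -/
noncomputable def GG (k : ℕ) (e : ℤ) (m q : ℕ) : Lat (n := n) (K := K) T.BB := fun i =>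
  Submodule.span K {v | ∃ a ∈ T.A i, ∃ s : Fin q → Fin k, ∃ l : Fin q → Fin (n + 2),
    ∑ r, ((s r : ℕ) + 1) = m ∧ v = C (T.x i ^ e * a) * ∏ r, T.δ (s r) (T.x (l r) / T.x i)}

/-- `ρ_c`: the minor with the columns `c` divided by `F_{n+1}`; a section of `Gr(-(d-n-2))`. -/
noncomputable def ρ {k : ℕ} (c : Fin n → Fin k) : T.BB :=
  C (T.fd (Fin.last (n + 1)))⁻¹ * Matrix.det (Matrix.of fun l r : Fin n => (X ((c r : ℕ), l) : T.BB))

/-- The part of `Gr_{m,q}(e)` with `p` factors `ρ`. -/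
noncomputable def GP (k p : ℕ) (e : ℤ) (m q : ℕ) : Lat (n := n) (K := K) T.BB := fun i =>
  Submodule.span K {v | ∃ (c : Fin p → Fin n → Fin k) (m' q' : ℕ),
    ∃ g ∈ T.GG k (e + p * ((d : ℤ) - n - 2)) m' q' i,
    q' + p * n = q ∧ m' + ∑ r, ∑ t, ((c r t : ℕ) + 1) = m ∧ v = (∏ r, T.ρ (c r)) * g}

/-- The total derivative: `D u = ∑ ∂_l u X(0,l)` for `u ∈ L` and `D X(s,l) = X(s+1,l)`. -/
noncomputable def D : Derivation K T.BB T.BB := totD T.par

theorem D_C (v : T.L) : T.D (C v) = T.δ 0 v := totD_C T.par v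

theorem D_X (s : ℕ) (l : Fin n) : T.D (X (s, l)) = X (s + 1, l) := totD_X T.par s l

/-- `E_{k,m}(e)`: jet differentials of order `k` and weight `m` with values in `O(e)`. -/
noncomputable def EE (k : ℕ) (e : ℤ) (m : ℕ) : Lat (n := n) (K := K) T.BB := fun i =>
  Submodule.span K {v | ∃ a ∈ T.A i, ∃ (q : ℕ) (s : Fin q → Fin k) (l : Fin q → Fin (n + 2)),
    ∑ r, ((s r : ℕ) + 1) = m ∧
      v = C (T.x i ^ e * a) * ∏ r, (T.D : T.BB → T.BB)^[(s r : ℕ) + 1] (C (T.x (l r) / T.x i))}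

/-- Truncation: the components of degree `< q`. -/
noncomputable def trunc (q : ℕ) : T.BB →ₗ[T.L] T.BB := ∑ j ∈ Finset.range q, homogeneousComponent j

end Pool.Agent.H47.UG.FF
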