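import Pool.Agent.H45.UG.LocGP
import Pool.Agent.H1.UG.LocGGF
import Pool.Agent.H47.UG.Det

/-!
# LOCGP, final form
-/

set_option autoImplicit false

open MvPolynomial

namespace Pool.Agent.H47.UG.FF

variable {K : Type} [Field K] [CharZero K] {n d : ℕ} {F : HP K n} (T : FF d F) (hF : Nice d F)

include hF

/-- LOCGP -/
theorem loc_GP (hd : 2 ≤ d) (k p : ℕ) (e : ℤ) (m q : ℕ) (i : Fin (n + 2)) (j : Fin (n + 1)) (v : T.BB) :
    (∃ N : ℕ, C (T.u i (i.succAbove j)) ^ N * v ∈ T.GP k p e m q i) ↔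
    ∃ (r : ℕ) (a : Fin r → T.L) (g : Fin r → MvPolynomial (ℕ × Fin n) K), (∀ t, g t ∈ IP K n k p m q) ∧
      (∀ t, a t ∈ T.locA e i (i.succAbove j)) ∧
      v = T.σ i j (∑ t, C (a t) * map (algebraMap K T.L) (g t)) :=
  Pool.Agent.H45.UG.loc_GP_of T (fun k e m q i j v => T.loc_GG hF hd k e m q i j v)
    (fun _ i j c => T.det_y hF hd i j c) (fun j => T.fd_ne hF hd j) (fun i j => T.u_mem hF i j) k p e m q i j v

end Pool.Agent.H47.UG.FF
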