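import Pool.Agent.H47.UG.MainA
import Pool.Agent.H97.UG.Num
import Pool.Agent.H3.UG.Rank

set_option autoImplicit false

open MvPolynomial Real

namespace Pool.Agent.H47.UG.FF

open Pool.Agent.H47.KB (wt Mon)

variable {K : Type} [Field K] [CharZero K] {n d : ℕ} {F : HP K n} (T : FF d F) (hF : Nice d F)

include hF

/-- Many jet differentials of order `k`, weight `m` and twist `-b`. -/
theorem exists_many (hn : 2 ≤ n) (hd : 100000 * (n : ℝ) ^ 2 * (1 + log n) ^ 2 ≤ d) :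
    ∃ k m b p : ℕ, 1 ≤ k ∧ k + 1 ≤ d ∧ p * (5 * k) < b ∧
      ∃ H : Submodule K T.BB, H ≤ H0 (T.EE k (-(b : ℤ)) m) ∧ FiniteDimensional K H ∧
        Nat.card (Mon n k m (p + 1)) * hyp n d ((d - 2) * m - b) < Module.finrank K H := by
  obtain ⟨k, hk, hkd, h⟩ := numeric hn hd
  obtain ⟨c₀, hA⟩ := T.mainA hF hn (by omega) k
  obtain ⟨m, b, p, l, c, h1, h2, h3, h4⟩ := h c₀
  obtain ⟨H, hH, hfin, hle⟩ := hA m b l c h2 h3
  obtain ⟨r1, r2⟩ := rank_glue K n k m l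
  exact ⟨k, m, b, p, hk, by omega, h1, H, hH, hfin, h4 _ _ _ r1 r2 hle⟩

end Pool.Agent.H47.UG.FF
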