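import Pool.Agent.H14.UG.Van4

/-!
# VAN: `H¹ = 0` for large twists, uniformly in the weight, the degree and the number of minors
-/

set_option autoImplicit false

open MvPolynomial

namespace Pool.Agent.H47.UG.FF

variable {K : Type} [Field K] [CharZero K] {n d : ℕ} {F : HP K n} (T : FF d F) (hF : Nice d F)

include hF

/-- VAN -/
theorem vanish (_hd : 2 ≤ d) (k : ℕ) : ∃ c₀ : ℕ, ∀ (p m q : ℕ) (e : ℤ),
    (c₀ : ℤ) + 2 * q ≤ e + p * ((d : ℤ) - n - 2) → T.H1zero (T.GP k p e m q) :=
  have : Infinite K := inferInstance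
  have _ := hF
  Pool.Agent.H14.UG.vanish T k

end Pool.Agent.H47.UG.FF
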